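import Pool.Agent.Lib.MP_1ef7cf_nt.Abelian
import Pool.Agent.Lib.MP_1ef7cf_nt.Fiber

/-!
# Real numbers whose square root lies in an abelian extension
-/

open IntermediateField Polynomial

namespace Pool.Agent.STd

open Pool.Agent.ST

variable {K : Type*} [Field K] [Algebra K ℝ] {H L F : IntermediateField K ℝ}

variable (K) in
/-- the square root of `x` lies in a finite abelian extension of `K` inside `ℝ`. -/
def AS (x : ℝ) : Prop :=
  ∃ L : IntermediateField K ℝ, FiniteDimensional K L ∧ IsAbelianGalois K L ∧ Real.sqrt x ∈ L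

lemma AS.mul {x y : ℝ} (h0 : 0 ≤ x) (hx : AS K x) (hy : AS K y) : AS K (x * y) := by
  obtain ⟨L, h1, h2, h3⟩ := hx
  obtain ⟨M, g1, g2, g3⟩ := hy
  refine ⟨L ⊔ M, inferInstance, isAbelianGalois_sup, ?_⟩
  rw [Real.sqrt_mul h0]
  exact mul_mem ((le_sup_left : L ≤ L ⊔ M) h3) ((le_sup_right : M ≤ L ⊔ M) g3)

lemma AS.inv {x : ℝ} (hx : AS K x) : AS K x⁻¹ := by
  obtain ⟨L, h1, h2, h3⟩ := hx
  refine ⟨L, h1, h2, ?_⟩
  rw [Real.sqrt_inv]
  exact inv_mem h3

lemma AS.div {x y : ℝ} (h0 : 0 ≤ x) (hx : AS K x) (hy : AS K y) : AS K (x / y) := by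
  rw [div_eq_mul_inv]
  exact AS.mul h0 hx hy.inv

lemma AS.of_sq [FiniteDimensional K H] [IsAbelianGalois K H] {y : ℝ} (hy : y ∈ H) :
    AS K (y ^ 2) := by
  refine ⟨H, inferInstance, inferInstance, ?_⟩
  rw [Real.sqrt_sq_eq_abs]
  rcases abs_choice y with h | h <;> rw [h]
  · exact hy
  · exact neg_mem hy

variable (K) in
lemma AS.one : AS K 1 := by
  have := AS.of_sq (H := (⊥ : IntermediateField K ℝ)) (one_mem _)
  rwa [one_pow] at this

lemma AS.prod {ι : Type*} (s : Finset ι) (f : ι → ℝ) (h0 : ∀ i ∈ s, 0 ≤ f i)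
    (h : ∀ i ∈ s, AS K (f i)) : AS K (∏ i ∈ s, f i) := by
  classical
  induction s using Finset.induction_on with
  | empty => simpa using AS.one K
  | insert a s ha ih =>
    rw [Finset.prod_insert ha]
    exact AS.mul (h0 a (Finset.mem_insert_self _ _)) (h a (Finset.mem_insert_self _ _))
      (ih (fun i hi => h0 i (Finset.mem_insert_of_mem hi))
        (fun i hi => h i (Finset.mem_insert_of_mem hi)))

lemma AS.act [FiniteDimensional K H] [IsAbelianGalois K H] {x : ℝ} (hx : x ∈ H) (h : AS K x)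
    (h0 : 0 ≤ x) (σ : H ≃ₐ[K] H) (_hσ : 0 ≤ act σ x) : AS K (ST.act σ x) := by
  obtain ⟨L, h1, h2, h3⟩ := h
  have hM : IsAbelianGalois K (H ⊔ L : IntermediateField K ℝ) := isAbelianGalois_sup
  obtain ⟨γ, hγ⟩ := res_surjective (le_sup_left : H ≤ H ⊔ L) σ
  refine ⟨H ⊔ L, inferInstance, hM, ?_⟩
  have hs : Real.sqrt x ∈ H ⊔ L := (le_sup_right : L ≤ H ⊔ L) h3
  have h4 : ST.act γ x = ST.act σ x := by
    rw [← hγ, act_res le_sup_left γ hx]
  obtain ⟨s, hs1, hs2⟩ := act_sqrt hs h0 γ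
  rw [h4] at hs2
  have h5 : Real.sqrt (ST.act σ x) = s * ST.act γ (Real.sqrt x) := by
    rw [hs2, ← mul_assoc]
    rcases hs1 with rfl | rfl <;> simp
  rw [h5]
  exact mul_mem (const_mem hs1 _) (act_mem γ hs)

lemma AS.fibProd (hHL : H ≤ L) [FiniteDimensional K L] [IsAbelianGalois K L] [Normal K H] {x : ℝ}
    (hx : x ∈ L) (hpos : ∀ γ : L ≃ₐ[K] L, 0 < ST.act γ x) (h : AS K x) (σ : H ≃ₐ[K] H) :
    AS K (ST.fibProd hHL x σ) := by
  have h0 : 0 < x := by
    have := hpos 1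
    rwa [act_one_left hx] at this
  exact AS.prod _ _ (fun γ _ => (hpos γ).le) (fun γ _ => h.act hx h0.le γ (hpos γ).le)

lemma AS.ab [FiniteDimensional K H] [IsAbelianGalois K H] {x : ℝ} (h : AS K x) :
    IsAbelianGalois K (sqrtExt H x) := by
  obtain ⟨L, h1, h2, h3⟩ := h
  have hM : IsAbelianGalois K (H ⊔ L : IntermediateField K ℝ) := isAbelianGalois_sup
  exact isAbelianGalois_of_le (sqrtExt_le le_sup_left ((le_sup_right : L ≤ H ⊔ L) h3))

lemma as_of_ab [FiniteDimensional K H] {x : ℝ} (hx : x ∈ H) (h0 : 0 ≤ x)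
    (h : IsAbelianGalois K (sqrtExt H x)) : AS K x :=
  ⟨sqrtExt H x, finiteDimensional_sqrtExt hx h0, h, sqrt_mem_sqrtExt H x⟩

/-- the subgroup of the `σ` with `√(σ u / u)` in an abelian extension -/
def sg [FiniteDimensional K H] [IsAbelianGalois K H] {u : ℝ} (hu : u ∈ H)
    (hpos : ∀ σ : H ≃ₐ[K] H, 0 < ST.act σ u) : Subgroup (H ≃ₐ[K] H) where
  carrier := {σ | AS K (ST.act σ u / u)}
  one_mem' := by
    have h0 : u ≠ 0 := by
      have := hpos 1
      rw [act_one_left hu] at this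
      exact this.ne'
    change AS K (ST.act 1 u / u)
    rw [act_one_left hu, div_self h0]
    exact AS.one K
  mul_mem' := by
    intro σ τ hσ hτ
    change AS K (ST.act (σ * τ) u / u)
    have h0 : 0 < u := by
      have := hpos 1
      rwa [act_one_left hu] at this
    have hm : ST.act τ u / u ∈ H := div_mem (act_mem τ hu) hu
    have h1 : ST.act (σ * τ) u / u = ST.act σ (ST.act τ u / u) * (ST.act σ u / u) := by
      rw [act_div σ (act_mem τ hu) hu, act_comp σ τ hu, div_mul_div_cancel₀ (hpos σ).ne']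
    have h2 : 0 < ST.act σ (ST.act τ u / u) := by
      rw [act_div σ (act_mem τ hu) hu, ← act_comp σ τ hu]
      exact div_pos (hpos _) (hpos _)
    rw [h1]
    exact AS.mul h2.le (AS.act hm hτ (div_pos (hpos τ) h0).le σ h2.le) hσ
  inv_mem' := by
    intro σ hσ
    change AS K (ST.act σ⁻¹ u / u)
    have h0 : 0 < u := by
      have := hpos 1
      rwa [act_one_left hu] at this
    have hm : ST.act σ u / u ∈ H := div_mem (act_mem σ hu) hu
    have h1 : ST.act σ⁻¹ u / u = (ST.act σ⁻¹ (ST.act σ u / u))⁻¹ := by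
      rw [act_div σ⁻¹ (act_mem σ hu) hu, act_inv_act σ hu, inv_div]
    have h2 : 0 < ST.act σ⁻¹ (ST.act σ u / u) := by
      rw [act_div σ⁻¹ (act_mem σ hu) hu, act_inv_act σ hu]
      exact div_pos h0 (hpos _)
    rw [h1]
    exact (AS.act hm hσ (div_pos (hpos σ) h0).le σ⁻¹ h2.le).inv

lemma mem_sg [FiniteDimensional K H] [IsAbelianGalois K H] {u : ℝ} {hu : u ∈ H}
    {hpos : ∀ σ : H ≃ₐ[K] H, 0 < ST.act σ u} {σ : H ≃ₐ[K] H} :
    σ ∈ sg hu hpos ↔ AS K (ST.act σ u / u) := Iff.rfl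

/-- the norm to a subfield fixed by an involution `τ` with `√(τ X / X)` in an abelian extension. -/
theorem as_fibProd_of_inv (hFL : F ≤ L) [FiniteDimensional K L] [IsAbelianGalois K L] [Normal K F]
    {X : ℝ} (hX : X ∈ L) (hpos : ∀ γ : L ≃ₐ[K] L, 0 < ST.act γ X) {τ : L ≃ₐ[K] L} (hτ : τ ≠ 1)
    (hτ2 : τ * τ = 1) (hτF : res hFL τ = 1) (hAS : AS K (ST.act τ X / X)) (σ : F ≃ₐ[K] F) :
    AS K (ST.fibProd hFL X σ) := by
  classical
  have h0 : 0 < X := by
    have := hpos 1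
    rwa [act_one_left hX] at this
  have pair : ∀ γ : L ≃ₐ[K] L, AS K (ST.act γ X * ST.act (γ * τ) X) := by
    intro γ
    have hm : ST.act τ X / X ∈ L := div_mem (act_mem τ hX) hX
    have h1 : ST.act γ X * ST.act (γ * τ) X = (ST.act γ X) ^ 2 * ST.act γ (ST.act τ X / X) := by
      rw [act_div γ (act_mem τ hX) hX, act_comp γ τ hX]
      have := (hpos γ).ne'
      field_simp
    rw [h1]
    have h2 : 0 < ST.act γ (ST.act τ X / X) := by
      rw [act_div γ (act_mem τ hX) hX, ← act_comp γ τ hX]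
      exact div_pos (hpos _) (hpos _)
    exact AS.mul (sq_nonneg _) (AS.of_sq (act_mem γ hX))
      (AS.act hm hAS (div_pos (hpos τ) h0).le γ h2.le)
  have key : ∀ (n : ℕ) (s : Finset (L ≃ₐ[K] L)), s.card = n → (∀ γ ∈ s, γ * τ ∈ s) →
      AS K (∏ γ ∈ s, ST.act γ X) := by
    intro n
    induction n using Nat.strong_induction_on with
    | _ n ih =>
      intro s hs hcl
      rcases s.eq_empty_or_nonempty with rfl | ⟨γ, hγ⟩
      · simpa using AS.one K
      · have hγτ := hcl γ hγ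
        have hne : γ * τ ≠ γ := fun h => hτ (mul_eq_left.1 h)
        have hγ' : γ * τ ∈ s.erase γ := Finset.mem_erase.2 ⟨hne, hγτ⟩
        rw [← Finset.mul_prod_erase s _ hγ, ← Finset.mul_prod_erase (s.erase γ) _ hγ', ← mul_assoc]
        have hc1 := Finset.card_erase_of_mem hγ
        have hc2 := Finset.card_erase_of_mem hγ'
        have hc3 := Finset.card_pos.2 ⟨γ, hγ⟩
        refine AS.mul (mul_pos (hpos _) (hpos _)).le (pair γ)
          (ih _ ?_ ((s.erase γ).erase (γ * τ)) rfl ?_)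
        · omega
        · intro δ hδ
          rw [Finset.mem_erase, Finset.mem_erase] at hδ ⊢
          obtain ⟨h1, h2, h3⟩ := hδ
          refine ⟨fun h => h2 (mul_right_cancel h), fun h => h1 ?_, hcl δ h3⟩
          rw [← h, mul_assoc, hτ2, mul_one]
  refine key _ (fib hFL σ) rfl ?_
  intro γ hγ
  rw [mem_fib] at hγ ⊢
  rw [map_mul, hτF, mul_one, hγ]

end Pool.Agent.STd
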