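import Pool.Agent.Lib.MP_1ef7cf_nt.Core4
import Pool.Agent.Lib.MP_1ef7cf_nt.StarkOnly
import Pool.Agent.Lib.MP_1ef7cf_nt_b.MainT
import Pool.Agent.Lib.MP_1ef7cf_nt_d.AS

/-!
# Assembling the data at the auxiliary primes
-/

set_option linter.unusedSectionVars false

open NumberField IsDedekindDomain nonZeroDivisors IntermediateField

namespace Pool.Agent.STd

open Pool.Agent.ST Pool.Agent.STb

variable {K : Type*} [Field K] [NumberField K] [Algebra K ℝ] {σ₂ : K →+* ℝ}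

lemma isSU_of_preStark {H : IntermediateField K ℝ} {u : ℝ} (h : PreStark σ₂ H u) :
    IsSU σ₂ H u :=
  ⟨h.mem, h.pos, h.int, h.int_inv, fun g hg => by
    have := h.abs g hg
    rwa [emb_of_mem g h.mem] at this⟩

lemma isStarkUnit_of_isSU {H : IntermediateField K ℝ} [FiniteDimensional K H]
    [IsAbelianGalois K H] {u : ℝ} (h : IsSU σ₂ H u) (hAS : AS K u) : IsStarkUnit σ₂ H u :=
  ⟨h.mem, h.pos, h.int, h.int_inv, h.abs, hAS.ab⟩

lemma SData.val' {m : Ideal (𝓞 K)} {H : IntermediateField K ℝ}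
    {Art : RayClassGroup σ₂ m ≃* (H ≃ₐ[K] H)} {u : ℝ} (hd : SData σ₂ m H Art u) :
    u = Real.exp (-2 * zd σ₂ m 1) := by
  have h := hd.act 1
  rwa [map_one, act_one_left hd.pre.mem] at h

/-- norm of a ratio -/
lemma fibProd_ratio {F L : IntermediateField K ℝ} (h : F ≤ L) [FiniteDimensional K L]
    [IsAbelianGalois K L] [Normal K F] {w : ℝ} (hw : w ∈ L) (δ : L ≃ₐ[K] L) :
    fibProd h (w / act δ⁻¹ w) 1 = fibProd h w 1 / act (res h δ)⁻¹ (fibProd h w 1) := by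
  have h1 : fibProd h w 1 ∈ F := fibProd_mem_base h hw 1
  have h2 : act (res h δ)⁻¹ (fibProd h w 1) = ∏ γ ∈ fib h (1 : F ≃ₐ[K] F), act γ (act δ⁻¹ w) := by
    rw [← map_inv, act_res h δ⁻¹ h1]
    unfold fibProd
    rw [act_prod δ⁻¹ _ _ (fun γ _ => act_mem γ hw)]
    exact Finset.prod_congr rfl fun γ _ => act_act_comm _ _ hw
  rw [h2]
  unfold fibProd
  rw [← Finset.prod_div_distrib]
  exact Finset.prod_congr rfl fun γ _ => act_div γ hw (act_mem _ hw)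

/-- The norm relation for a prime. -/
lemma norm_prime_rel (h2 : Module.finrank ℚ K = 2) (hσ : σ₂ ≠ sg1 K) {n n' : Ideal (𝓞 K)}
    (hn : n ≠ ⊥) (hn1 : n ≠ ⊤) {q : PrI K} (hq : ¬ q.asIdeal ∣ n) (hn' : n' = n * q.asIdeal)
    {H H' : IntermediateField K ℝ} {Art : RayClassGroup σ₂ n ≃* (H ≃ₐ[K] H)}
    {Art' : RayClassGroup σ₂ n' ≃* (H' ≃ₐ[K] H')} {u u' : ℝ} (hd : SData σ₂ n H Art u)
    (hd' : SData σ₂ n' H' Art' u') [Normal K H] [FiniteDimensional K H'] (hle : H ≤ H') :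
    fibProd hle u' 1 = u / act (Art (cls σ₂ n (prJ n q hq)))⁻¹ u := by
  have h3 := fibProd_prime h2 hσ hn hn1 hn' hd.rcf hd'.rcf hle 1 hd'.act (coe_prJ n q hq)
  rw [map_one] at h3
  rw [h3, ← map_inv Art, hd.act, one_mul, ← SData.val' hd]

theorem assemble {m : Ideal (𝓞 K)} {H : IntermediateField K ℝ}
    {Art : RayClassGroup σ₂ m ≃* (H ≃ₐ[K] H)}
    (h2 : Module.finrank ℚ K = 2) (hσ : σ₂ ≠ sg1 K) (hm : m ≠ ⊥) (hm1 : m ≠ ⊤)
    {u : ℝ} (hd : SData σ₂ m H Art u) [FiniteDimensional K H] [IsAbelianGalois K H]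
    {ι : Type*} (q : ι → PrI K) (hinj : Function.Injective q) (hq : ∀ i, ¬ (q i).asIdeal ∣ m)
    (L : ι → IntermediateField K ℝ)
    (ArtL : ∀ i, RayClassGroup σ₂ (m * (q i).asIdeal) ≃* (L i ≃ₐ[K] L i)) (w : ι → ℝ)
    (hL : ∀ i, SData σ₂ (m * (q i).asIdeal) (L i) (ArtL i) (w i))
    (F : ι → IntermediateField K ℝ) (hHF : ∀ i, H ≤ F i) (hFL : ∀ i, F i ≤ L i)
    [∀ i, FiniteDimensional K (L i)] [∀ i, IsAbelianGalois K (L i)]
    [∀ i, FiniteDimensional K (F i)] [∀ i, IsAbelianGalois K (F i)]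
    (hAS : ∀ i, AS K (fibProd (hFL i) (w i) 1))
    (heven : ∀ i, Even (fib (hHF i) (1 : H ≃ₐ[K] H)).card)
    (hgen : Subgroup.closure {σ | ∃ i j, i ≠ j ∧ Art (cls σ₂ m (prJ m (q i) (hq i))) = σ ∧
      Art (cls σ₂ m (prJ m (q j) (hq j))) = σ} = ⊤)
    (R : ι → ι → Prop) (hRne : ∀ i j, R i j → i ≠ j)
    (hgenR : ∀ i, Subgroup.closure {σ | ∃ j, R i j ∧ Art (cls σ₂ m (prJ m (q j) (hq j))) = σ} = ⊤)
    (hpair : ∀ i j, R i j → ∃ (M : IntermediateField K ℝ)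
      (ArtM : RayClassGroup σ₂ (m * (q i).asIdeal * (q j).asIdeal) ≃* (M ≃ₐ[K] M)) (Z : ℝ)
      (_ : SData σ₂ (m * (q i).asIdeal * (q j).asIdeal) M ArtM Z)
      (_ : FiniteDimensional K M) (_ : IsAbelianGalois K M)
      (_ : IsAbelianGalois K (F i ⊔ F j : IntermediateField K ℝ))
      (hle : F i ⊔ F j ≤ M), AS K (fibProd hle Z 1)) : StarkTate σ₂ m := by
  classical
  have hne : ∀ i, m * (q i).asIdeal ≠ ⊥ := fun i => mul_ne_bot' hm (q i).ne_bot
  have hle : ∀ i, m * (q i).asIdeal ≤ m := fun i => Ideal.mul_le_left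
  have hHL : ∀ i, H ≤ L i := fun i => (hHF i).trans (hFL i)
  let φ : ι → (H ≃ₐ[K] H) := fun i => Art (cls σ₂ m (prJ m (q i) (hq i)))
  let e : (H ≃ₐ[K] H) → ℝ := fun σ => Real.exp (-2 * zd σ₂ m (Art.symm σ))
  have epos : ∀ σ, 0 < e σ := fun σ => Real.exp_pos _
  let _ : Fintype (RayClassGroup σ₂ m) := Fintype.ofEquiv _ Art.symm.toEquiv
  have eprod : ∏ σ, e σ = 1 := by
    rw [← Real.exp_sum, ← Finset.mul_sum]
    have h3 : ∑ σ, zd σ₂ m (Art.symm σ) = ∑ A, zd σ₂ m A :=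
      Equiv.sum_comp Art.symm.toEquiv _
    rw [h3, sum_zd h2 hσ hm hm1, mul_zero, Real.exp_zero]
  let x : ι → ℝ := fun i => fibProd (hFL i) (w i) 1
  have hx : ∀ i, IsStarkUnit σ₂ (F i) (x i) := fun i =>
    isStarkUnit_of_isSU (IsSU.fibProd (hFL i) (isSU_of_preStark (hL i).pre)) (hAS i)
  have hnorm : ∀ i σ, fibProd (hHF i) (x i) σ = e σ / e (σ * (φ i)⁻¹) := by
    intro i σ
    obtain ⟨A, rfl⟩ := Art.surjective σ
    rw [fibProd_trans (hHF i) (hFL i) (hL i).pre.mem]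
    rw [fibProd_prime h2 hσ hm hm1 rfl hd.rcf (hL i).rcf (hHL i) A (hL i).act
      (coe_prJ m (q i) (hq i))]
    have h3 : Art.symm (Art A * (φ i)⁻¹) = A * (cls σ₂ m (prJ m (q i) (hq i)))⁻¹ := by
      rw [MulEquiv.symm_apply_eq, map_mul, map_inv]
    simp only [e]
    rw [h3, MulEquiv.symm_apply_apply]
  have hinf : ∀ i j, i ≠ j → F i ⊓ F j ≤ H := by
    intro i j hij
    have hij' : q i ≠ q j := fun h => hij (hinj h)
    exact (inf_le_inf (hFL i) (hFL j)).trans (inf_le' hm hij' (hq j) rfl rfl hd.rcf (hL i).rcf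
      (hL j).rcf)
  -- the data for pairs
  have hpair' : ∀ i j, R i j → ∃ U : ℝ, U ∈ (F i ⊔ F j : IntermediateField K ℝ) ∧ 0 ≤ U ∧
      IsAbelianGalois K (sqrtExt (F i ⊔ F j) U) ∧
      (∃ Φj : F i ≃ₐ[K] F i, res (hHF i) Φj = φ j ∧
        fibProd (le_sup_left : F i ≤ F i ⊔ F j) U 1 = x i / act Φj⁻¹ (x i)) ∧
      (∃ Φi : F j ≃ₐ[K] F j, res (hHF j) Φi = φ i ∧
        fibProd (le_sup_right : F j ≤ F i ⊔ F j) U 1 = x j / act Φi⁻¹ (x j)) := by
    intro i j hR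
    have hij := hRne i j hR
    have hij' : q i ≠ q j := fun h => hij (hinj h)
    obtain ⟨M, ArtM, Z, hM, hMfd, hMab, hsab, hsup, hZ⟩ := hpair i j hR
    have hneM : m * (q i).asIdeal * (q j).asIdeal ≠ ⊥ := mul_ne_bot' (hne i) (q j).ne_bot
    have hMi : m * (q i).asIdeal * (q j).asIdeal ≤ m * (q i).asIdeal := Ideal.mul_le_left
    have hMj : m * (q i).asIdeal * (q j).asIdeal ≤ m * (q j).asIdeal := by
      rw [mul_right_comm]; exact Ideal.mul_le_left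
    have hLiM : L i ≤ M := IsRCF.le hMi hneM Set.finite_empty Set.finite_empty hM.rcf.isRCF
      (hL i).rcf.isRCF
    have hLjM : L j ≤ M := IsRCF.le hMj hneM Set.finite_empty Set.finite_empty hM.rcf.isRCF
      (hL j).rcf.isRCF
    have hUsu : IsSU σ₂ (F i ⊔ F j : IntermediateField K ℝ) (fibProd hsup Z 1) :=
      IsSU.fibProd hsup (isSU_of_preStark hM.pre)
    have hti : m * (q i).asIdeal ≠ ⊤ := ne_top_of_le_ne_top hm1 (hle i)
    have htj : m * (q j).asIdeal ≠ ⊤ := ne_top_of_le_ne_top hm1 (hle j)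
    have ndj : ¬ (q j).asIdeal ∣ m * (q i).asIdeal := not_dvd_mul_prime (hq j) (Ne.symm hij')
    have ndi : ¬ (q i).asIdeal ∣ m * (q j).asIdeal := not_dvd_mul_prime (hq i) hij'
    refine ⟨fibProd hsup Z 1, hUsu.mem, hUsu.pos'.le, hZ.ab, ?_, ?_⟩
    · refine ⟨res (hFL i) (ArtL i (cls σ₂ _ (prJ _ (q j) ndj))), ?_, ?_⟩
      · rw [res_res (hHF i) (hFL i)]
        rw [IsRCF.res_art (hle i) (hne i) Set.finite_empty Set.finite_empty (hL i).rcf.isRCF
          hd.rcf.isRCF]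
        rfl
      · rw [fibProd_trans le_sup_left hsup hM.pre.mem,
          ← fibProd_trans (hFL i) hLiM hM.pre.mem,
          norm_prime_rel h2 hσ (hne i) hti ndj rfl (hL i) hM hLiM,
          fibProd_ratio (hFL i) (hL i).pre.mem]
    · refine ⟨res (hFL j) (ArtL j (cls σ₂ _ (prJ _ (q i) ndi))), ?_, ?_⟩
      · rw [res_res (hHF j) (hFL j)]
        rw [IsRCF.res_art (hle j) (hne j) Set.finite_empty Set.finite_empty (hL j).rcf.isRCF
          hd.rcf.isRCF]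
        rfl
      · rw [fibProd_trans le_sup_right hsup hM.pre.mem,
          ← fibProd_trans (hFL j) hLjM hM.pre.mem,
          norm_prime_rel h2 hσ (hne j) htj ndi (mul_right_comm _ _ _) (hL j) hM hLjM,
          fibProd_ratio (hFL j) (hL j).pre.mem]
  obtain ⟨hs, hact⟩ := core' σ₂ e epos eprod φ F hHF x hx heven hnorm hinf hgen R hRne hgenR hpair'
  have hdn : STData σ₂ m H Art (e 1) := by
    refine ⟨hd.rcf, hs, fun A => ?_⟩
    rw [hact]
    simp only [e]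
    rw [MulEquiv.symm_apply_apply]
  exact hdn.starkTate h2 hσ hm hm1

end Pool.Agent.STd
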