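import Pool.Agent.Lib.MP_1ef7cf_nt.LowDens

/-!
# Frobenius elements with nontrivial restriction to two extensions
-/

open NumberField Filter Topology Ideal IsDedekindDomain nonZeroDivisors IntermediateField

namespace Pool.Agent.STd

open Pool.Agent.ST

section

variable {K L : Type*} [Field K] [NumberField K] [Field L] [NumberField L] [Algebra K L]
  [IsGalois K L]

/-- The primes outside `B'` with a prime of `F` above of degree one. -/
def spl (B' : Set (PrI K)) (F : IntermediateField K L) : Set (PrI K) :=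
  {p | p ∉ B' ∧ ∃ q : PrI F, und K q = p ∧ pn q = pn p}

omit [IsGalois K L] in
lemma mem_spl_iff {B' : Set (PrI K)} (F : IntermediateField K L) [IsGalois K F] {P : PrI L}
    (hun : Algebra.IsUnramifiedAt (𝓞 K) P.asIdeal) (hB : und K P ∉ B') {σ : L ≃ₐ[K] L}
    (hσ : IsFrob K P σ) : und K P ∈ spl B' F ↔ ∀ x ∈ F, σ x = x := by
  have h3 : IsFrob K (und F P) (σ.restrictNormal F) :=
    isFrob_und (fun x => σ.restrictNormal_commutes F x) hσ
  have : Algebra.IsUnramifiedAt (𝓞 K) (und F P).asIdeal := unramified_und P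
  constructor
  · rintro ⟨-, q, hq1, hq2⟩ x hx
    have h1 : und K (und F P) = und K P := und_und P
    have h2 : pn (und F P) = pn (und K (und F P)) := by
      rw [h1, ← hq2]
      exact pn_eq_of_und_eq K (by rw [h1, hq1])
    have h4 : σ.restrictNormal F = 1 := isFrob_unique h3 (isFrob_one_of_pn_eq h2)
    have := σ.restrictNormal_commutes F ⟨x, hx⟩
    rw [h4] at this
    exact this.symm
  · intro h
    have h4 : σ.restrictNormal F = 1 := by
      ext x
      have h5 := σ.restrictNormal_commutes F x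
      have h6 : σ (algebraMap F L x) = algebraMap F L x := h _ x.2
      rw [h6] at h5
      have h7 : σ.restrictNormal F x = x := (algebraMap F L).injective h5
      rw [h7]; rfl
    rw [h4] at h3
    refine ⟨hB, und F P, und_und P, ?_⟩
    rw [pn_eq_of_isFrob_one h3, und_und]

omit [IsGalois K L] in
lemma spl_upper (B' : Set (PrI K))
    (hB' : ∀ P : PrI L, ¬ Algebra.IsUnramifiedAt (𝓞 K) P.asIdeal → und K P ∈ B')
    (F : IntermediateField K L) [IsGalois K F] : ∃ C : ℝ, ∀ᶠ s in 𝓝[>] (1 : ℝ),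
      Module.finrank K F * ∑' q, (spl B' F).indicator (px s) q ≤
        Real.log (1 / (s - 1)) + C := by
  refine split_upper (K := K) (L := F) (spl B' F) ?_
  rintro p ⟨hp, q, hq1, hq2⟩ P₁ hP₁
  obtain ⟨P, hP⟩ := exists_ovr (K := F) (L := L) P₁
  have hPK : und K P = p := by rw [← hP₁, ← hP, und_und]
  have hun : Algebra.IsUnramifiedAt (𝓞 K) P.asIdeal := by
    by_contra hn
    exact hp (hPK ▸ hB' P hn)
  refine ⟨by rw [← hP]; exact unramified_und P, ?_⟩
  apply isFrob_one_of_pn_eq
  rw [hP₁, ← hq2]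
  exact pn_eq_of_und_eq K (by rw [hP₁, hq1])

omit [IsGalois K L] in
lemma spl_lower (B' : Set (PrI K)) (hB'fin : B'.Finite)
    (F : IntermediateField K L) [IsGalois K F] : ∃ C : ℝ, ∀ᶠ s in 𝓝[>] (1 : ℝ),
      Real.log (1 / (s - 1)) - C ≤
        Module.finrank K F * ∑' q, (spl B' F).indicator (px s) q := by
  set T : Set (PrI K) := spl B' F with hT
  -- upper bound for the prime sum of F
  set g : ℝ → PrI K → ℝ := fun s p => T.indicator (px s) p + px 2 p + B'.indicator (fun _ => 1) p
    with hg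
  have hsumB : Summable (B'.indicator (fun _ => (1 : ℝ)) : PrI K → ℝ) := by
    apply summable_of_hasFiniteSupport
    exact hB'fin.subset (Set.support_indicator_subset)
  have hsumT : ∀ s : ℝ, 1 < s → Summable (T.indicator (px s) : PrI K → ℝ) :=
    fun s hs => (summable_px hs).indicator T
  have hg0 : ∀ s p, 0 ≤ g s p := by
    intro s p
    have h1 : 0 ≤ T.indicator (px s) p := Set.indicator_nonneg (fun x _ => (px_pos s x).le) p
    have h2 : (0 : ℝ) ≤ B'.indicator (fun _ => (1 : ℝ)) p :=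
      Set.indicator_nonneg (fun x _ => zero_le_one) p
    have h3 := (px_pos 2 p).le
    simp only [hg]
    linarith
  have hgs : ∀ s : ℝ, 1 < s → Summable (g s) := fun s hs =>
    ((hsumT s hs).add (summable_px one_lt_two)).add hsumB
  have claim2 : ∀ s : ℝ, 1 < s → ∀ q : PrI F, px s q ≤ g s (und K q) := by
    intro s hs q
    have h1 : 0 ≤ T.indicator (px s) (und K q) :=
      Set.indicator_nonneg (fun x _ => (px_pos s x).le) _
    have h2 : (0 : ℝ) ≤ B'.indicator (fun _ => (1 : ℝ)) (und K q) :=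
      Set.indicator_nonneg (fun x _ => zero_le_one) _
    have h3 := (px_pos 2 (und K q)).le
    simp only [hg]
    by_cases hb : und K q ∈ B'
    · have h4 := px_le_half hs.le q
      rw [Set.indicator_of_mem hb]
      linarith
    · by_cases hq : pn q = pn (und K q)
      · have h5 : und K q ∈ T := ⟨hb, q, rfl, hq⟩
        rw [Set.indicator_of_mem h5]
        have h6 : px s q = px s (und K q) := by rw [px, px, hq]
        linarith
      · have h5 := pn_sq_le K hq
        have h6 : px s q ≤ px 2 (und K q) := by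
          have h7 := two_le_pn (und K q)
          have h8 : (2 : ℝ) ≤ (pn (und K q) : ℝ) := by exact_mod_cast h7
          have h9 : ((pn (und K q) : ℝ)) ^ 2 ≤ (pn q : ℝ) := by exact_mod_cast h5
          unfold px
          calc (pn q : ℝ) ^ (-s) ≤ ((pn (und K q) : ℝ) ^ 2) ^ (-s) := by
                apply Real.rpow_le_rpow_of_nonpos (by positivity) h9 (by linarith)
            _ = (pn (und K q) : ℝ) ^ (-(2 * s)) := by
                rw [← Real.rpow_natCast, ← Real.rpow_mul (by positivity)]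
                congr 1
                push_cast
                ring
            _ ≤ (pn (und K q) : ℝ) ^ (-2 : ℝ) := by
                apply Real.rpow_le_rpow_of_exponent_le (by linarith) (by linarith)
        linarith
  have up : ∀ s : ℝ, 1 < s → primeSum F s ≤ Module.finrank K F *
      (∑' p, T.indicator (px s) p + primeSum K 2 + ∑' p, B'.indicator (fun _ => (1 : ℝ)) p) := by
    intro s hs
    have h1 := primeSum_le_of K (E := F) (g s) (hg0 s) (hgs s hs) (claim2 s hs)
    have h2 : ∑' p, g s p = ∑' p, T.indicator (px s) p + primeSum K 2 +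
        ∑' p, B'.indicator (fun _ => (1 : ℝ)) p := by
      simp only [hg]
      rw [((hsumT s hs).add (summable_px one_lt_two)).tsum_add hsumB,
        (hsumT s hs).tsum_add (summable_px one_lt_two)]
      rfl
    rwa [h2] at h1
  obtain ⟨CF, hCF⟩ := primeSum_asymp F
  set β : ℝ := ∑' p, B'.indicator (fun _ => (1 : ℝ)) p with hβ
  refine ⟨CF + Module.finrank K F * (primeSum K 2 + β), ?_⟩
  filter_upwards [hCF, self_mem_nhdsWithin] with s h1 h2
  have h3 := up s h2
  rw [abs_le] at h1
  rw [log_one_div_sub]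
  linarith [h1.1]

lemma tendsto_log_one_div : Tendsto (fun s : ℝ => Real.log (1 / (s - 1))) (𝓝[>] 1) atTop := by
  have h1 : Tendsto (fun s : ℝ => s - 1) (𝓝[>] 1) (𝓝[>] 0) := by
    have h2 : Tendsto (fun s : ℝ => s - 1) (𝓝 1) (𝓝 0) := by
      have h3 : Continuous fun s : ℝ => s - 1 := by fun_prop
      have h4 := h3.tendsto 1
      rwa [sub_self] at h4
    refine tendsto_nhdsWithin_iff.2 ⟨h2.mono_left nhdsWithin_le_nhds, ?_⟩
    filter_upwards [self_mem_nhdsWithin] with s hs
    have : (1 : ℝ) < s := hs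
    simpa using this
  have h5 := tendsto_neg_atBot_atTop.comp (Real.tendsto_log_nhdsGT_zero.comp h1)
  refine h5.congr fun s => ?_
  rw [log_one_div_sub]
  rfl

omit [NumberField K] [NumberField L] [IsGalois K L] in
lemma finrank_lt_double [FiniteDimensional K L] {M M₁ : IntermediateField K L} (h : M < M₁) :
    2 * Module.finrank K M ≤ Module.finrank K M₁ := by
  obtain ⟨c, hc⟩ := IntermediateField.finrank_dvd_of_le_right h.le
  have h0 : 0 < Module.finrank K M₁ := Module.finrank_pos
  have h1 : c ≠ 0 := by rintro rfl; omega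
  have h2 : c ≠ 1 := by
    rintro rfl
    exact h.ne (IntermediateField.eq_of_le_of_finrank_eq h.le (by rw [hc, mul_one]))
  rw [hc, mul_comm]
  exact Nat.mul_le_mul_left _ (by omega)

/-- Primes with Frobenius trivial on `M`, and nontrivial on two proper extensions of `M`. -/
theorem exists_two (M M₁ M₂ : IntermediateField K L) [IsGalois K M] [IsGalois K M₁]
    [IsGalois K M₂] (h1 : M < M₁) (h2 : M < M₂) (B : Set (PrI K)) (hB : B.Finite) :
    ∃ P : PrI L, und K P ∉ B ∧ Algebra.IsUnramifiedAt (𝓞 K) P.asIdeal ∧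
      ∃ σ : L ≃ₐ[K] L, IsFrob K P σ ∧ (∀ x ∈ M, σ x = x) ∧ (∃ x ∈ M₁, σ x ≠ x) ∧
        (∃ x ∈ M₂, σ x ≠ x) := by
  by_contra hcon
  push Not at hcon
  set R : Set (PrI L) := {P : PrI L | ¬ Algebra.IsUnramifiedAt (𝓞 K) P.asIdeal} with hR
  set B' : Set (PrI K) := B ∪ und K '' R with hB'
  have hB'fin : B'.Finite := hB.union ((finite_ramified K).image _)
  have hB'un : ∀ P : PrI L, ¬ Algebra.IsUnramifiedAt (𝓞 K) P.asIdeal → und K P ∈ B' :=
    fun P hP => Or.inr ⟨P, hP, rfl⟩
  have hcover : ∀ p ∈ spl B' M, p ∈ spl B' M₁ ∨ p ∈ spl B' M₂ := by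
    intro p hp
    obtain ⟨P, rfl⟩ := exists_ovr (L := L) p
    have hun : Algebra.IsUnramifiedAt (𝓞 K) P.asIdeal := by
      by_contra hn
      exact hp.1 (hB'un P hn)
    obtain ⟨σ, hσ⟩ := exists_isFrob (K := K) P
    have h3 := (mem_spl_iff M hun hp.1 hσ).1 hp
    rw [mem_spl_iff M₁ hun hp.1 hσ, mem_spl_iff M₂ hun hp.1 hσ]
    by_contra hn
    push Not at hn
    obtain ⟨⟨x, hx, hx'⟩, ⟨y, hy, hy'⟩⟩ := hn
    exact hy' (hcon P (fun hb => hp.1 (Or.inl hb)) hun σ hσ h3 ⟨x, hx, hx'⟩ y hy)
  have hsup : ∀ p, p ∈ spl B' (M₁ ⊔ M₂) ↔ p ∈ spl B' M₁ ∧ p ∈ spl B' M₂ := by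
    intro p
    obtain ⟨P, rfl⟩ := exists_ovr (L := L) p
    by_cases hb : und K P ∈ B'
    · exact ⟨fun h => absurd hb h.1, fun h => absurd hb h.1.1⟩
    have hun : Algebra.IsUnramifiedAt (𝓞 K) P.asIdeal := by
      by_contra hn
      exact hb (hB'un P hn)
    obtain ⟨σ, hσ⟩ := exists_isFrob (K := K) P
    rw [mem_spl_iff M₁ hun hb hσ, mem_spl_iff M₂ hun hb hσ, mem_spl_iff _ hun hb hσ]
    constructor
    · intro h
      exact ⟨fun x hx => h x ((le_sup_left : M₁ ≤ M₁ ⊔ M₂) hx),
        fun x hx => h x ((le_sup_right : M₂ ≤ M₁ ⊔ M₂) hx)⟩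
    · rintro ⟨h3, h4⟩
      have h5 : M₁ ⊔ M₂ ≤ IntermediateField.fixedField (Subgroup.zpowers σ) := by
        have aux : ∀ F : IntermediateField K L, (∀ x ∈ F, σ x = x) →
            F ≤ IntermediateField.fixedField (Subgroup.zpowers σ) := by
          intro F hF
          rw [IntermediateField.le_iff_le, Subgroup.zpowers_le]
          exact (IntermediateField.mem_fixingSubgroup_iff F σ).2 hF
        exact sup_le (aux M₁ h3) (aux M₂ h4)
      intro x hx
      exact (IntermediateField.mem_fixedField_iff _ x).1 (h5 hx) σ (Subgroup.mem_zpowers σ)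
  obtain ⟨C, hC⟩ := spl_lower B' hB'fin M
  obtain ⟨C₁, hC₁⟩ := spl_upper B' hB'un M₁
  obtain ⟨C₂, hC₂⟩ := spl_upper B' hB'un M₂
  obtain ⟨C', hC'⟩ := spl_lower B' hB'fin (M₁ ⊔ M₂)
  set a : ℝ := (Module.finrank K M : ℝ) with ha
  set a₁ : ℝ := (Module.finrank K M₁ : ℝ) with ha₁
  set a₂ : ℝ := (Module.finrank K M₂ : ℝ) with ha₂
  set b : ℝ := (Module.finrank K (M₁ ⊔ M₂ : IntermediateField K L) : ℝ) with hb
  have ha0 : 0 < a := by rw [ha]; exact_mod_cast (Module.finrank_pos : 0 < Module.finrank K M)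
  have hb0 : 0 < b := by
    rw [hb]
    exact_mod_cast (Module.finrank_pos :
      0 < Module.finrank K (M₁ ⊔ M₂ : IntermediateField K L))
  have e₁ : 2 * a ≤ a₁ := by rw [ha, ha₁]; exact_mod_cast finrank_lt_double h1
  have e₂ : 2 * a ≤ a₂ := by rw [ha, ha₂]; exact_mod_cast finrank_lt_double h2
  have hev := (tendsto_log_one_div.eventually_gt_atTop
    ((2 * a * C' + b * (2 * C + C₁ + C₂)) / (2 * a))).and
    ((hC.and (hC₁.and (hC₂.and hC'))).and self_mem_nhdsWithin)
  obtain ⟨s, hs0, ⟨g, g₁, g₂, g'⟩, hs1⟩ := hev.exists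
  have hs1' : (1 : ℝ) < s := hs1
  set S := ∑' q, (spl B' M).indicator (px s) q with hS
  set S₁ := ∑' q, (spl B' M₁).indicator (px s) q with hS₁
  set S₂ := ∑' q, (spl B' M₂).indicator (px s) q with hS₂
  set S' := ∑' q, (spl B' (M₁ ⊔ M₂)).indicator (px s) q with hS'
  have hsm : ∀ T : Set (PrI K), Summable (T.indicator (px s) : PrI K → ℝ) :=
    fun T => (summable_px hs1').indicator T
  have hnn : ∀ (T : Set (PrI K)) (q : PrI K), 0 ≤ T.indicator (px s) q :=
    fun T q => Set.indicator_nonneg (fun x _ => (px_pos s x).le) q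
  have key : S + S' ≤ S₁ + S₂ := by
    rw [hS, hS', hS₁, hS₂, ← (hsm _).tsum_add (hsm _), ← (hsm _).tsum_add (hsm _)]
    apply ((hsm _).add (hsm _)).tsum_le_tsum _ ((hsm _).add (hsm _))
    intro q
    have n0 := hnn (spl B' M₁) q
    have n1 := hnn (spl B' M₂) q
    by_cases c1 : q ∈ spl B' M₁ <;> by_cases c2 : q ∈ spl B' M₂
    · have c3 : q ∈ spl B' (M₁ ⊔ M₂) := (hsup q).2 ⟨c1, c2⟩
      rw [Set.indicator_of_mem c1, Set.indicator_of_mem c2, Set.indicator_of_mem c3]
      have := Set.indicator_le_self' (s := spl B' M) (f := px s)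
        (fun x _ => (px_pos s x).le) q
      linarith
    · have c3 : q ∉ spl B' (M₁ ⊔ M₂) := fun h => c2 ((hsup q).1 h).2
      rw [Set.indicator_of_mem c1, Set.indicator_of_notMem c2, Set.indicator_of_notMem c3]
      have := Set.indicator_le_self' (s := spl B' M) (f := px s)
        (fun x _ => (px_pos s x).le) q
      linarith
    · have c3 : q ∉ spl B' (M₁ ⊔ M₂) := fun h => c1 ((hsup q).1 h).1
      rw [Set.indicator_of_notMem c1, Set.indicator_of_mem c2, Set.indicator_of_notMem c3]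
      have := Set.indicator_le_self' (s := spl B' M) (f := px s)
        (fun x _ => (px_pos s x).le) q
      linarith
    · have c3 : q ∉ spl B' (M₁ ⊔ M₂) := fun h => c1 ((hsup q).1 h).1
      have c4 : q ∉ spl B' M := fun h => by
        rcases hcover q h with h | h
        · exact c1 h
        · exact c2 h
      rw [Set.indicator_of_notMem c1, Set.indicator_of_notMem c2, Set.indicator_of_notMem c3,
        Set.indicator_of_notMem c4]
  have p1 : 0 ≤ S₁ := tsum_nonneg fun q => hnn _ q
  have p2 : 0 ≤ S₂ := tsum_nonneg fun q => hnn _ q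
  set ℓ := Real.log (1 / (s - 1)) with hℓ
  have q1 : 2 * a * S₁ ≤ ℓ + C₁ := (mul_le_mul_of_nonneg_right e₁ p1).trans g₁
  have q2 : 2 * a * S₂ ≤ ℓ + C₂ := (mul_le_mul_of_nonneg_right e₂ p2).trans g₂
  have k1 : 2 * a * (S + S') ≤ 2 * a * (S₁ + S₂) :=
    mul_le_mul_of_nonneg_left key (by positivity)
  have k2 : 2 * a * S' ≤ 2 * C + C₁ + C₂ := by nlinarith
  have k3 : b * (2 * a * S') ≤ b * (2 * C + C₁ + C₂) := mul_le_mul_of_nonneg_left k2 hb0.le
  have k4 : 2 * a * (ℓ - C') ≤ 2 * a * (b * S') := mul_le_mul_of_nonneg_left g' (by positivity)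
  rw [div_lt_iff₀ (by positivity)] at hs0
  nlinarith

end

end Pool.Agent.STd
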