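import Pool.Agent.Lib.MP_1ef7cf_nt.Step
import Pool.Agent.Lib.MP_1ef7cf_nt_b.MainT

/-!
# The hypotheses for the removal of a prime above `2` from the modulus
-/

open NumberField IsDedekindDomain nonZeroDivisors IntermediateField

namespace Pool.Agent.STd

open Pool.Agent.ST Pool.Agent.STb

variable {K : Type*} [Field K] [NumberField K] [Algebra K ℝ]

/-- The hypotheses at the multiples of `m` prime to `v`. -/
structure Hyp (σ₂ : K →+* ℝ) (m : Ideal (𝓞 K)) (v : PrI K) : Prop where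
  h2 : Module.finrank ℚ K = 2
  hσ : σ₂ ≠ sg1 K
  hm : m ≠ ⊥
  hm1 : m ≠ ⊤
  hv : ¬ v.asIdeal ∣ m
  stark : ∀ n : Ideal (𝓞 K), n ≠ ⊥ → n ≤ m → ¬ v.asIdeal ∣ n → ∃ (H : IntermediateField K ℝ)
    (Art : RayClassGroup σ₂ n ≃* (H ≃ₐ[K] H)) (u : ℝ), SData σ₂ n H Art u
  tate : ∀ n : Ideal (𝓞 K), n ≠ ⊥ → n ≤ m → ¬ v.asIdeal ∣ n → StarkTate σ₂ (n * v.asIdeal)

variable {σ₂ : K →+* ℝ} {m n : Ideal (𝓞 K)} {v q : PrI K}

lemma Hyp.mono (h : Hyp σ₂ m v) (hn : n ≠ ⊥) (hnm : n ≤ m) (hv : ¬ v.asIdeal ∣ n) :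
    Hyp σ₂ n v :=
  ⟨h.h2, h.hσ, hn, ne_top_of_le_ne_top h.hm1 hnm, hv,
    fun n' h1 h2 h3 => h.stark n' h1 (h2.trans hnm) h3,
    fun n' h1 h2 h3 => h.tate n' h1 (h2.trans hnm) h3⟩

lemma Hyp.mul (h : Hyp σ₂ m v) (hq : q ≠ v) : Hyp σ₂ (m * q.asIdeal) v :=
  h.mono (mul_ne_bot' h.hm q.ne_bot) Ideal.mul_le_left (not_dvd_mul_prime h.hv hq.symm)

end Pool.Agent.STd
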