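import Pool.Agent.Lib.MP_1ef7cf_nt.Final
import Pool.Agent.Lib.MP_1ef7cf_nt_d.AS
import Pool.Agent.Lib.MP_1ef7cf_nt_d.Hyp

/-!
# The extension of ray class fields given by a prime
-/

open NumberField IsDedekindDomain nonZeroDivisors IntermediateField

namespace Pool.Agent.STd

open Pool.Agent.ST Pool.Agent.STb

section

variable {K : Type*} [Field K] [NumberField K] {σ₂ : K →+* ℝ}
  {m : Ideal (𝓞 K)} {q : PrI K}

lemma mem_mul_iff (hq : ¬ q.asIdeal ∣ m) {x : 𝓞 K} :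
    x ∈ m * q.asIdeal ↔ x ∈ m ∧ x ∈ q.asIdeal := by
  have hcop : IsCoprime m q.asIdeal := by
    rw [isCoprime_comm]; exact coprime_prime_iff.2 hq
  rw [Ideal.mul_eq_inf_of_isCoprime hcop]
  rfl

omit [NumberField K] in
lemma pow_sub_one_mem {z : 𝓞 K} (hz : z - 1 ∈ m) (k : ℕ) : z ^ k - 1 ∈ m := by
  have h1 : z - 1 ∣ z ^ k - 1 := by simpa using sub_dvd_pow_sub_pow z 1 k
  exact m.mem_of_dvd h1 hz

theorem cls_pow_eq_one (_hm : m ≠ ⊥) (hq : ¬ q.asIdeal ∣ m) {z : 𝓞 K} (hz1 : z - 1 ∈ m)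
    (hz2 : 0 < σ₂ (z : K)) {J : primeTo (K := K) (m * q.asIdeal)}
    (hJ : ((J : (FI K)ˣ) : FI K) = (Ideal.span {z} : Ideal (𝓞 K))) (k : ℕ) :
    cls σ₂ (m * q.asIdeal) J ^ k = 1 ↔
      ∃ w : (𝓞 K)ˣ, EU σ₂ m w ∧ z ^ k - (w : 𝓞 K) ∈ q.asIdeal := by
  have hJk : (((J ^ k : primeTo (K := K) (m * q.asIdeal)) : (FI K)ˣ) : FI K) =
      ((Ideal.span {z ^ k} : Ideal (𝓞 K)) : FI K) := by
    rw [Subgroup.coe_pow, Units.val_pow_eq_pow_val, hJ, ← FractionalIdeal.coeIdeal_pow,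
      Ideal.span_singleton_pow]
  rw [← map_pow, cls_eq_one_iff]
  constructor
  · rintro ⟨α, hα1, hα2, hα3⟩
    rw [hJk] at hα3
    obtain ⟨x, hx1, hx2, hx3⟩ := int_of_coe_eq hα1 hα3
    obtain ⟨w, hw⟩ := Ideal.span_singleton_eq_span_singleton.1 hx3.symm
    rw [← hx1] at hα2
    obtain ⟨hx4, hx5⟩ := (mem_mul_iff hq).1 hx2
    refine ⟨w, ⟨?_, ?_⟩, ?_⟩
    · have : (w : 𝓞 K) - 1 = (z ^ k - 1) - w * (x - 1) := by rw [← hw]; ring
      rw [this]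
      exact m.sub_mem (pow_sub_one_mem hz1 k) (m.mul_mem_left _ hx4)
    · have e1 : σ₂ (x : K) * σ₂ ((w : 𝓞 K) : K) = σ₂ (z : K) ^ k := by
        rw [← map_mul, ← map_pow]
        congr 1
        rw [← map_pow, ← map_mul, hw]
      have e2 : 0 < σ₂ (x : K) * σ₂ ((w : 𝓞 K) : K) := by rw [e1]; exact pow_pos hz2 k
      exact (pos_iff_pos_of_mul_pos e2).1 hα2
    · have : z ^ k - (w : 𝓞 K) = w * (x - 1) := by rw [← hw]; ring
      rw [this]
      exact q.asIdeal.mul_mem_left _ hx5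
  · rintro ⟨w, hw1, hw2⟩
    have e0 : z ^ k * ((w⁻¹ : (𝓞 K)ˣ) : 𝓞 K) - 1 = ((w⁻¹ : (𝓞 K)ˣ) : 𝓞 K) * (z ^ k - w) := by
      rw [mul_sub, Units.inv_mul]; ring
    have e1 : z ^ k - (w : 𝓞 K) ∈ m := by
      have : z ^ k - (w : 𝓞 K) = (z ^ k - 1) - (w - 1) := by ring
      rw [this]
      exact m.sub_mem (pow_sub_one_mem hz1 k) hw1.1
    refine ⟨((z ^ k * ((w⁻¹ : (𝓞 K)ˣ) : 𝓞 K) : 𝓞 K) : K), oneMod_of_sub_one_mem ?_, ?_, ?_⟩
    · rw [e0]
      exact Ideal.mul_mem_left _ _ ((mem_mul_iff hq).2 ⟨e1, hw2⟩)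
    · have e3 : ((z ^ k * ((w⁻¹ : (𝓞 K)ˣ) : 𝓞 K) : 𝓞 K) : K) =
          (z : K) ^ k * (((w⁻¹ : (𝓞 K)ˣ) : 𝓞 K) : K) := by
        simp only [RingOfIntegers.coe_eq_algebraMap, map_mul, map_pow]
      rw [e3, map_mul, map_pow]
      exact mul_pos (pow_pos hz2 k) hw1.inv.2
    · rw [hJk, ← coe_span_singleton]
      congr 1
      rw [Ideal.span_singleton_eq_span_singleton]
      exact ⟨w⁻¹, rfl⟩

/-- a generator of the multiplicative group of the residue field -/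
lemma exists_gen_res (q : PrI K) : ∃ g : 𝓞 K ⧸ q.asIdeal, g ≠ 0 ∧
    (∀ x : 𝓞 K ⧸ q.asIdeal, x ≠ 0 → ∃ k : ℕ, x = g ^ k) ∧
    ∀ a b : ℕ, g ^ a = g ^ b → ((pn q - 1 : ℕ) : ℤ) ∣ (a : ℤ) - b := by
  classical
  have := q.isMaximal
  have : Finite (𝓞 K ⧸ q.asIdeal) := Ideal.finiteQuotientOfFreeOfNeBot q.asIdeal q.ne_bot
  let _ : Field (𝓞 K ⧸ q.asIdeal) := Ideal.Quotient.field q.asIdeal
  let _ : Fintype (𝓞 K ⧸ q.asIdeal) := Fintype.ofFinite _
  obtain ⟨g, hg⟩ := IsCyclic.exists_generator (α := (𝓞 K ⧸ q.asIdeal)ˣ)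
  have hord : orderOf g = pn q - 1 := by
    rw [orderOf_eq_card_of_forall_mem_zpowers hg, Nat.card_units]
    rfl
  refine ⟨g, g.ne_zero, ?_, ?_⟩
  · intro x hx
    have h1 := mem_powers_iff_mem_zpowers.2 (hg (Units.mk0 x hx))
    obtain ⟨k, hk⟩ := h1
    refine ⟨k, ?_⟩
    have h2 := congrArg Units.val hk
    simpa using h2.symm
  · intro a b hab
    have h1 : g ^ a = g ^ b := by
      apply Units.ext
      simpa using hab
    rw [pow_eq_pow_iff_modEq, hord] at h1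
    have h2 := (Nat.modEq_iff_dvd.1 h1)
    rw [← dvd_neg, neg_sub]
    exact h2

end

section

variable {K : Type*} [Field K] [NumberField K] [Algebra K ℝ] {σ₂ : K →+* ℝ}
  {m : Ideal (𝓞 K)} {q : PrI K} {H H' : IntermediateField K ℝ}
  {Art : RayClassGroup σ₂ m ≃* (H ≃ₐ[K] H)}
  {Art' : RayClassGroup σ₂ (m * q.asIdeal) ≃* (H' ≃ₐ[K] H')}

/-- `Gal(H' / H)` is cyclic, with known order -/
theorem exists_cyc' (hm : m ≠ ⊥) (hq : ¬ q.asIdeal ∣ m) (h : IsRayClassField σ₂ m H Art)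
    (h' : IsRayClassField σ₂ (m * q.asIdeal) H' Art') (hle : H ≤ H') [Normal K H] :
    ∃ (γ₀ : H' ≃ₐ[K] H') (g : 𝓞 K ⧸ q.asIdeal),
      (∀ γ : H' ≃ₐ[K] H', res hle γ = 1 ↔ γ ∈ Subgroup.zpowers γ₀) ∧
      (∀ x : 𝓞 K ⧸ q.asIdeal, x ≠ 0 → ∃ k : ℕ, x = g ^ k) ∧
      (∀ k : ℕ, γ₀ ^ k = 1 ↔ ∃ w : (𝓞 K)ˣ, EU σ₂ m w ∧ g ^ k = Ideal.Quotient.mk q.asIdeal w) ∧
      ∀ a b : ℕ, g ^ a = g ^ b → ((pn q - 1 : ℕ) : ℤ) ∣ (a : ℤ) - b := by
  have hle' : m * q.asIdeal ≤ m := Ideal.mul_le_left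
  have hne' : m * q.asIdeal ≠ ⊥ := mul_ne_bot' hm q.ne_bot
  have hcop : IsCoprime q.asIdeal m := coprime_prime_iff.2 hq
  obtain ⟨g, hg0, hg1, hg2⟩ := exists_gen_res q
  obtain ⟨a, ha⟩ := Ideal.Quotient.mk_surjective g
  obtain ⟨y, hy1, hy2⟩ := exists_crt hcop a 1
  obtain ⟨z, hz1, hz2⟩ := exists_pos σ₂ (mul_ne_bot' q.ne_bot hm) y
  have hz3 : z - a ∈ q.asIdeal := by
    have : z - a = (z - y) + (y - a) := by ring
    rw [this]
    exact q.asIdeal.add_mem (Ideal.mul_le_left hz1) hy1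
  have hz4 : z - 1 ∈ m := by
    have : z - 1 = (z - y) + (y - 1) := by ring
    rw [this]
    exact m.add_mem (Ideal.mul_le_right hz1) hy2
  have hzg : Ideal.Quotient.mk q.asIdeal z = g := by
    rw [← ha]; exact Ideal.Quotient.eq.2 hz3
  have hz0 : z ≠ 0 := ne_zero_of_pos hz2
  have hz0' : (z : K) ≠ 0 := coe_ne_zero' hz0
  have hzq : IsCoprime (Ideal.span {z}) q.asIdeal := by
    rw [isCoprime_comm, coprime_prime_iff, Ideal.dvd_iff_le, Ideal.span_singleton_le_iff_mem]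
    intro hmem
    apply hg0
    rw [← hzg]
    exact Ideal.Quotient.eq_zero_iff_mem.2 hmem
  have hzn : IsCoprime (Ideal.span {z}) (m * q.asIdeal) :=
    (coprime_span_of_sub_one_mem hz4).mul_right hzq
  let J : primeTo (K := K) (m * q.asIdeal) :=
    ⟨uP (z : K) hz0', coe_mem_primeTo (I := Ideal.span {z}) (by rw [coe_uP, coe_span_singleton]) hzn⟩
  have hJ : ((J : (FI K)ˣ) : FI K) = (Ideal.span {z} : Ideal (𝓞 K)) := by
    rw [coe_span_singleton]; rfl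
  refine ⟨Art' (cls σ₂ _ J), g, ?_, hg1, ?_, hg2⟩
  · intro γ
    constructor
    · intro hγ
      obtain ⟨A, rfl⟩ := Art'.surjective γ
      rw [IsRCF.res_art hle' hne' Set.finite_empty Set.finite_empty h'.isRCF h.isRCF] at hγ
      obtain ⟨J', rfl⟩ := cls_surjective _ A
      have h3 : cls σ₂ m (inc hle' J') = 1 := by
        apply Art.injective
        rw [map_one]; exact hγ
      rw [cls_eq_one_iff, coe_inc] at h3
      obtain ⟨b, c, hb, hc, hbc, hb0, hc0, hpos, hJe⟩ := rep hne' J'.2 h3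
      have hcq : Ideal.Quotient.mk q.asIdeal c ≠ 0 := by
        intro h0
        rw [Ideal.Quotient.eq_zero_iff_mem] at h0
        have h1 : IsCoprime (Ideal.span {c}) q.asIdeal := isCoprime_of_le hc Ideal.mul_le_right
        rw [isCoprime_comm, coprime_prime_iff, Ideal.dvd_iff_le,
          Ideal.span_singleton_le_iff_mem] at h1
        exact h1 h0
      have hbq : Ideal.Quotient.mk q.asIdeal b ≠ 0 := by
        intro h0
        rw [Ideal.Quotient.eq_zero_iff_mem] at h0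
        have h1 : IsCoprime (Ideal.span {b}) q.asIdeal := isCoprime_of_le hb Ideal.mul_le_right
        rw [isCoprime_comm, coprime_prime_iff, Ideal.dvd_iff_le,
          Ideal.span_singleton_le_iff_mem] at h1
        exact h1 h0
      obtain ⟨k, hk⟩ : ∃ k : ℕ, Ideal.Quotient.mk q.asIdeal b =
          Ideal.Quotient.mk q.asIdeal c * g ^ k := by
        have := q.isMaximal
        let _ : Field (𝓞 K ⧸ q.asIdeal) := Ideal.Quotient.field q.asIdeal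
        obtain ⟨k, hk⟩ := hg1 ((Ideal.Quotient.mk q.asIdeal c)⁻¹ * Ideal.Quotient.mk q.asIdeal b)
          (mul_ne_zero (inv_ne_zero hcq) hbq)
        refine ⟨k, ?_⟩
        rw [← hk, mul_inv_cancel_left₀ hcq]
      have hbz : b - c * z ^ k ∈ m * q.asIdeal := by
        rw [mem_mul_iff hq]
        constructor
        · have : b - c * z ^ k = (b - c) - c * (z ^ k - 1) := by ring
          rw [this]
          exact m.sub_mem hbc (m.mul_mem_left _ (pow_sub_one_mem hz4 k))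
        · rw [← Ideal.Quotient.eq, map_mul, map_pow, hzg, hk]
      have hcls : cls σ₂ (m * q.asIdeal) J' = cls σ₂ _ (J ^ k) := by
        symm
        rw [cls_eq_iff]
        refine ⟨(b : K) / ((c * z ^ k : 𝓞 K) : K), ⟨b, c * z ^ k, ?_, hbz, rfl⟩, ?_, ?_⟩
        · rw [← Ideal.span_singleton_mul_span_singleton, ← Ideal.span_singleton_pow]
          exact hc.mul_left hzn.pow_left
        · have e3 : (b : K) / ((c * z ^ k : 𝓞 K) : K) = ((b : K) / (c : K)) / (z : K) ^ k := by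
            simp only [RingOfIntegers.coe_eq_algebraMap, map_mul, map_pow]
            rw [div_div]
          rw [e3, map_div₀, map_pow]
          exact div_pos hpos (pow_pos hz2 k)
        · rw [Units.val_mul, Units.val_inv_eq_inv_val, Subgroup.coe_pow,
            Units.val_pow_eq_pow_val, hJe]
          have hJz : ((J : (FI K)ˣ) : FI K) = FractionalIdeal.spanSingleton (𝓞 K)⁰ (z : K) := rfl
          rw [hJz, FractionalIdeal.spanSingleton_pow, FractionalIdeal.spanSingleton_inv,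
            FractionalIdeal.spanSingleton_mul_spanSingleton]
          congr 1
          simp only [RingOfIntegers.coe_eq_algebraMap, map_mul, map_pow]
          rw [mul_comm, ← div_eq_mul_inv, div_div]
      rw [hcls, map_pow, map_pow]
      exact Subgroup.pow_mem _ (Subgroup.mem_zpowers _) k
    · rintro ⟨k, rfl⟩
      simp only [map_zpow]
      have h3 : res hle (Art' (cls σ₂ _ J)) = 1 := by
        rw [IsRCF.res_art hle' hne' Set.finite_empty Set.finite_empty h'.isRCF h.isRCF, pr_cls]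
        have h4 : cls σ₂ m (inc hle' J) = 1 := by
          rw [cls_eq_one_iff, coe_inc]
          exact ⟨z, oneMod_of_sub_one_mem hz4, hz2, rfl⟩
        rw [h4, map_one]
      rw [h3, one_zpow]
  · intro k
    rw [← map_pow]
    have h3 : Art' (cls σ₂ (m * q.asIdeal) J ^ k) = 1 ↔ cls σ₂ (m * q.asIdeal) J ^ k = 1 := by
      rw [← map_one Art', Art'.injective.eq_iff]
    rw [h3, cls_pow_eq_one hm hq hz4 hz2 hJ]
    refine exists_congr fun w => and_congr_right fun _ => ?_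
    rw [← Ideal.Quotient.eq, map_pow, hzg]

/-- `Gal(H' / H)` is cyclic, with known order -/
theorem exists_cyc (hm : m ≠ ⊥) (hq : ¬ q.asIdeal ∣ m) (h : IsRayClassField σ₂ m H Art)
    (h' : IsRayClassField σ₂ (m * q.asIdeal) H' Art') (hle : H ≤ H') [Normal K H] :
    ∃ (γ₀ : H' ≃ₐ[K] H') (g : 𝓞 K ⧸ q.asIdeal),
      (∀ γ : H' ≃ₐ[K] H', res hle γ = 1 ↔ γ ∈ Subgroup.zpowers γ₀) ∧
      (∀ x : 𝓞 K ⧸ q.asIdeal, x ≠ 0 → ∃ k : ℕ, x = g ^ k) ∧
      ∀ k : ℕ, γ₀ ^ k = 1 ↔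
        ∃ w : (𝓞 K)ˣ, EU σ₂ m w ∧ g ^ k = Ideal.Quotient.mk q.asIdeal w := by
  obtain ⟨γ₀, g, h1, h2, h3, -⟩ := exists_cyc' hm hq h h' hle
  exact ⟨γ₀, g, h1, h2, h3⟩

theorem four_dvd_card (hm : m ≠ ⊥) (hq : ¬ q.asIdeal ∣ m) (h : IsRayClassField σ₂ m H Art)
    (h' : IsRayClassField σ₂ (m * q.asIdeal) H' Art') (hle : H ≤ H') [Normal K H]
    [FiniteDimensional K H'] (h4 : 4 ∣ pn q - 1)
    (hu : ∀ w : (𝓞 K)ˣ, EU σ₂ m w → ∃ x : 𝓞 K ⧸ q.asIdeal, x ^ 4 = Ideal.Quotient.mk q.asIdeal w) :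
    4 ∣ (fib hle (1 : H ≃ₐ[K] H)).card := by
  obtain ⟨γ₀, g, h1, h2, h3, h5⟩ := exists_cyc' hm hq h h' hle
  have hγ₀ : res hle γ₀ = 1 := (h1 γ₀).2 (Subgroup.mem_zpowers γ₀)
  have h6 : (fib hle (1 : H ≃ₐ[K] H)).card = Nat.card (res hle).ker := by
    rw [← Nat.card_eq_finsetCard]
    refine Nat.card_congr (Equiv.subtypeEquivRight fun γ => ?_)
    rw [mem_fib, MonoidHom.mem_ker]
  have h7 : γ₀ ^ (fib hle (1 : H ≃ₐ[K] H)).card = 1 := by
    rw [h6]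
    have h5 := pow_card_eq_one' (x := (⟨γ₀, hγ₀⟩ : (res hle).ker))
    exact congrArg Subtype.val h5
  obtain ⟨w, hw1, hw2⟩ := (h3 _).1 h7
  obtain ⟨x, hx⟩ := hu w hw1
  have := q.isMaximal
  let _ : Field (𝓞 K ⧸ q.asIdeal) := Ideal.Quotient.field q.asIdeal
  have hw0 : Ideal.Quotient.mk q.asIdeal (w : 𝓞 K) ≠ 0 := by
    have := (w.isUnit.map (Ideal.Quotient.mk q.asIdeal))
    exact this.ne_zero
  have hx0 : x ≠ 0 := by
    rintro rfl
    rw [zero_pow (by norm_num)] at hx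
    exact hw0 hx.symm
  obtain ⟨l, hl⟩ := h2 x hx0
  rw [← hx, hl, ← pow_mul] at hw2
  have h8 := h5 _ _ hw2
  have h9 : (4 : ℤ) ∣ ((pn q - 1 : ℕ) : ℤ) := by exact_mod_cast h4
  have h10 := h9.trans h8
  omega

/-- two involutions trivial on `H` are equal -/
theorem eq_of_involution (hm : m ≠ ⊥) (hq : ¬ q.asIdeal ∣ m) (h : IsRayClassField σ₂ m H Art)
    (h' : IsRayClassField σ₂ (m * q.asIdeal) H' Art') (hle : H ≤ H') [Normal K H]
    {τ τ' : H' ≃ₐ[K] H'} (h1 : res hle τ = 1) (h2 : res hle τ' = 1) (h3 : τ * τ = 1)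
    (h4 : τ' * τ' = 1) (h5 : τ ≠ 1) (h6 : τ' ≠ 1) : τ = τ' := by
  have := h'.finite
  obtain ⟨γ₀, g, g1, -, -, -⟩ := exists_cyc' hm hq h h' hle
  obtain ⟨a, rfl⟩ := (g1 τ).1 h1
  obtain ⟨b, rfl⟩ := (g1 τ').1 h2
  simp only at h3 h4 h5 h6 ⊢
  rw [← zpow_add, ← orderOf_dvd_iff_zpow_eq_one] at h3 h4
  rw [Ne, ← orderOf_dvd_iff_zpow_eq_one] at h5 h6
  have hn : 0 < orderOf γ₀ := orderOf_pos γ₀
  have key : (orderOf γ₀ : ℤ) ∣ a - b := by
    obtain ⟨c, hc⟩ := h3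
    obtain ⟨d, hd⟩ := h4
    have hc2 : ¬ Even c := by
      rintro ⟨e, he⟩
      apply h5
      refine ⟨e, ?_⟩
      have : a + a = orderOf γ₀ * e + orderOf γ₀ * e := by rw [hc, he]; ring
      omega
    have hd2 : ¬ Even d := by
      rintro ⟨e, he⟩
      apply h6
      refine ⟨e, ?_⟩
      have : b + b = orderOf γ₀ * e + orderOf γ₀ * e := by rw [hd, he]; ring
      omega
    rw [Int.not_even_iff_odd] at hc2 hd2
    obtain ⟨e, he⟩ := hc2.sub_odd hd2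
    refine ⟨e, ?_⟩
    have h7 : (a + a) - (b + b) = orderOf γ₀ * (e + e) := by rw [hc, hd, ← he]; ring
    have h8 : (orderOf γ₀ : ℤ) * (e + e) = orderOf γ₀ * e + orderOf γ₀ * e := by ring
    omega
  rw [orderOf_dvd_iff_zpow_eq_one, zpow_sub, mul_inv_eq_one] at key
  exact key

theorem units_dichotomy (h2 : Module.finrank ℚ K = 2) (hm : m ≠ ⊥) (q : PrI K) :
    (∀ w : (𝓞 K)ˣ, EU σ₂ m w → ∃ x : 𝓞 K ⧸ q.asIdeal, x ^ 4 = Ideal.Quotient.mk q.asIdeal w) ∨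
    (∀ w : (𝓞 K)ˣ, EU σ₂ (m * q.asIdeal) w → ∃ w' : (𝓞 K)ˣ, EU σ₂ m w' ∧ w = w' ^ 2) := by
  have := q.isMaximal
  have : Finite (𝓞 K ⧸ q.asIdeal) := Ideal.finiteQuotientOfFreeOfNeBot q.asIdeal q.ne_bot
  obtain ⟨η, hη, -, hgen⟩ := exists_gen σ₂ h2 hm
  let π : (𝓞 K)ˣ →* (𝓞 K ⧸ q.asIdeal)ˣ := Units.map (Ideal.Quotient.mk q.asIdeal).toMonoidHom
  have hπ : ∀ w : (𝓞 K)ˣ, ((π w : (𝓞 K ⧸ q.asIdeal)ˣ) : 𝓞 K ⧸ q.asIdeal) =
    Ideal.Quotient.mk q.asIdeal w := fun w => rfl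
  have hfin : IsOfFinOrder (π η) := isOfFinOrder_of_finite _
  rcases Nat.even_or_odd (orderOf (π η)) with hr | hr
  · right
    intro w hw
    have hw' : EU σ₂ m w := ⟨Ideal.mul_le_left hw.1, hw.2⟩
    obtain ⟨k, rfl⟩ := hgen w hw'
    have h1 : π (η ^ k) = 1 := by
      apply Units.ext
      rw [hπ, Units.val_one, ← map_one (Ideal.Quotient.mk q.asIdeal)]
      exact Ideal.Quotient.eq.2 (Ideal.mul_le_right hw.1)
    rw [map_zpow, ← orderOf_dvd_iff_zpow_eq_one] at h1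
    obtain ⟨j, hj⟩ := hr
    obtain ⟨i, hi⟩ := h1
    refine ⟨η ^ (j * i : ℤ), hη.zpow _, ?_⟩
    rw [← zpow_natCast, ← zpow_mul, hi, hj]
    congr 1
    push_cast
    ring
  · left
    have hcop : Nat.Coprime 4 (orderOf (π η)) := by
      have : Nat.Coprime 2 (orderOf (π η)) := hr.coprime_two_left
      exact this.pow_left 2
    intro w hw
    obtain ⟨k, rfl⟩ := hgen w hw
    obtain ⟨s, hs⟩ := exists_pow_eq_self_of_coprime hcop
    refine ⟨((π η ^ (s * k : ℤ) : (𝓞 K ⧸ q.asIdeal)ˣ) : 𝓞 K ⧸ q.asIdeal), ?_⟩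
    rw [← hπ, map_zpow, ← Units.val_pow_eq_pow_val]
    congr 1
    conv_rhs => rw [← hs]
    rw [← pow_mul, ← zpow_natCast, ← zpow_mul, ← zpow_natCast, ← zpow_mul]
    congr 1
    push_cast
    ring

end

end Pool.Agent.STd
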