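import Pool.Agent.Lib.MP_1ef7cf_nt_d.ASM
import Pool.Agent.Lib.MP_1ef7cf_nt_d.CYC

/-!
# Frobenius elements and square roots
-/

open NumberField IsDedekindDomain nonZeroDivisors IntermediateField

namespace Pool.Agent.STd

open Pool.Agent.ST Pool.Agent.STb

section

variable {K : Type*} [Field K] [NumberField K] [Algebra K ℝ] {σ₂ : K →+* ℝ}
  {m : Ideal (𝓞 K)} {v q : PrI K} {H H' : IntermediateField K ℝ}
  {Art : RayClassGroup σ₂ m ≃* (H ≃ₐ[K] H)}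

omit [NumberField K] in
lemma as_frob_of_norm [FiniteDimensional K H] [IsAbelianGalois K H] {u : ℝ} (hu : u ∈ H)
    (hpos : ∀ σ : H ≃ₐ[K] H, 0 < act σ u) {σ : H ≃ₐ[K] H} (h : AS K (u / act σ⁻¹ u)) :
    AS K (act σ u / u) := by
  have h1 : σ⁻¹ ∈ sg hu hpos := by
    rw [mem_sg]
    have := h.inv
    rwa [inv_div] at this
  have h2 := (sg hu hpos).inv_mem h1
  rw [inv_inv, mem_sg] at h2
  exact h2

theorem frob_mem_sg (h2 : Module.finrank ℚ K = 2) (hσ : σ₂ ≠ sg1 K) (hm : m ≠ ⊥) (hm1 : m ≠ ⊤)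
    (hv : ¬ v.asIdeal ∣ m) (hst : StarkTate σ₂ (m * v.asIdeal)) {u : ℝ}
    (hd : SData σ₂ m H Art u) : AS K (act (Art (cls σ₂ m (prJ m v hv))) u / u) := by
  obtain ⟨Hv, Artv, w, hw⟩ := hst.data
  have := hd.rcf.finite
  have := hw.rcf.finite
  have : IsAbelianGalois K H := hd.rcf.isRCF.abelian
  have : IsAbelianGalois K Hv := hw.rcf.isRCF.abelian
  have hle' : m * v.asIdeal ≤ m := Ideal.mul_le_left
  have hne' : m * v.asIdeal ≠ ⊥ := mul_ne_bot' hm v.ne_bot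
  have hle : H ≤ Hv := IsRCF.le hle' hne' Set.finite_empty Set.finite_empty hw.rcf.isRCF
    hd.rcf.isRCF
  have hASw : AS K w := as_of_ab hw.stark.mem (by
    have := hw.stark.pos 1
    rw [act_one_left hw.stark.mem] at this
    exact this.le) hw.stark.ab
  have h1 : AS K (fibProd hle w 1) := AS.fibProd hle hw.stark.mem hw.stark.pos hASw 1
  have h3 := fibProd_prime h2 hσ hm hm1 rfl hd.rcf hw.rcf hle 1 hw.act (coe_prJ m v hv)
  rw [map_one] at h3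
  rw [h3, ← SData.val' hd, one_mul, ← hd.act, map_inv] at h1
  exact as_frob_of_norm hd.pre.mem hd.pre.pos h1

/-- existence of the generator -/
theorem exists_beta (h : Hyp σ₂ m v) : ∃ (f : ℕ) (β : 𝓞 K), f ≠ 0 ∧
    Ideal.span {β} = v.asIdeal ^ f ∧ β - 1 ∈ m ∧ 0 < σ₂ (β : K) := by
  obtain ⟨H, Art, u, hd⟩ := h.stark m h.hm le_rfl h.hv
  have := hd.rcf.finite
  have : Finite (RayClassGroup σ₂ m) := Finite.of_equiv _ Art.symm.toEquiv
  have hfin : 0 < orderOf (cls σ₂ m (prJ m v h.hv)) := orderOf_pos _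
  have h1 := pow_orderOf_eq_one (cls σ₂ m (prJ m v h.hv))
  rw [← map_pow, cls_eq_one_iff] at h1
  obtain ⟨α, hα1, hα2, hα3⟩ := h1
  rw [Subgroup.coe_pow, Units.val_pow_eq_pow_val, coe_prJ, ← FractionalIdeal.coeIdeal_pow] at hα3
  obtain ⟨x, hx1, hx2, hx3⟩ := int_of_coe_eq hα1 hα3
  exact ⟨_, x, hfin.ne', hx3.symm, hx2, by rw [hx1]; exact hα2⟩

lemma pow_two_of_odd {F : Type*} [Field F] {b y : F} (hb : b ≠ 0) {k N : ℕ} (hk : Odd k)
    (h : b ^ k = y ^ (2 ^ N)) : ∃ x : F, x ^ (2 ^ N) = b := by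
  have hcop : Nat.Coprime k (2 ^ N) := (Nat.Coprime.pow_left N hk.coprime_two_left).symm
  have hcop' : IsCoprime (k : ℤ) ((2 ^ N : ℕ) : ℤ) := Nat.isCoprime_iff_coprime.2 hcop
  obtain ⟨s, t, hst⟩ := hcop'
  by_cases hy : y = 0
  · exfalso
    subst hy
    rw [zero_pow (pow_ne_zero N two_ne_zero)] at h
    exact pow_ne_zero k hb h
  · refine ⟨y ^ s * b ^ t, ?_⟩
    have e1 : (y ^ s * b ^ t) ^ (2 ^ N) = (y ^ (2 ^ N)) ^ s * b ^ (t * ((2 ^ N : ℕ) : ℤ)) := by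
      rw [mul_pow, ← zpow_natCast (y ^ s), ← zpow_natCast (b ^ t), ← zpow_mul, ← zpow_mul,
        ← zpow_natCast y, ← zpow_mul, mul_comm s]
    rw [e1, ← h, ← zpow_natCast, ← zpow_mul, ← zpow_add₀ hb, mul_comm (k : ℤ), hst, zpow_one]

theorem frob_mem_of_even (h : Hyp σ₂ m v) (hq : ¬ q.asIdeal ∣ m) (hqv : q ≠ v)
    (_hq2 : (2 : 𝓞 K) ∉ q.asIdeal) {u : ℝ} (hd : SData σ₂ m H Art u) {N f : ℕ} {β : 𝓞 K}
    (hβ : Ideal.span {β} = v.asIdeal ^ f) (hβ1 : β - 1 ∈ m) (hβ2 : 0 < σ₂ (β : K))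
    (hun : ∀ w : (𝓞 K)ˣ, EU σ₂ m w →
      ∃ y : 𝓞 K ⧸ q.asIdeal, y ^ (2 ^ N) = Ideal.Quotient.mk _ (w : 𝓞 K))
    (hβq : ¬ ∃ y : 𝓞 K ⧸ q.asIdeal, y ^ (2 ^ N) = Ideal.Quotient.mk _ β) :
    AS K (act (Art (cls σ₂ m (prJ m q hq))) u / u) := by
  have hle' : m * q.asIdeal ≤ m := Ideal.mul_le_left
  have hne' : m * q.asIdeal ≠ ⊥ := mul_ne_bot' h.hm q.ne_bot
  have hne1 : m * q.asIdeal ≠ ⊤ := ne_top_of_le_ne_top h.hm1 hle'
  have hvq : ¬ v.asIdeal ∣ m * q.asIdeal := not_dvd_mul_prime h.hv hqv.symm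
  obtain ⟨H', Art', u', hd'⟩ := h.stark _ hne' hle' hvq
  have := hd.rcf.finite
  have := hd'.rcf.finite
  have : IsAbelianGalois K H := hd.rcf.isRCF.abelian
  have : IsAbelianGalois K H' := hd'.rcf.isRCF.abelian
  have hle : H ≤ H' := IsRCF.le hle' hne' Set.finite_empty Set.finite_empty hd'.rcf.isRCF
    hd.rcf.isRCF
  -- the class of `β`
  set J : primeTo (K := K) (m * q.asIdeal) := (prJ (m * q.asIdeal) v hvq) ^ f with hJdef
  have hJ : ((J : (FI K)ˣ) : FI K) = (Ideal.span {β} : Ideal (𝓞 K)) := by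
    rw [hJdef, Subgroup.coe_pow, Units.val_pow_eq_pow_val, coe_prJ,
      ← FractionalIdeal.coeIdeal_pow, hβ]
  set g : H' ≃ₐ[K] H' := Art' (cls σ₂ (m * q.asIdeal) J) with hg
  have hgpow : ∀ k : ℕ, g ^ k = 1 ↔ ∃ w : (𝓞 K)ˣ, EU σ₂ m w ∧ β ^ k - (w : 𝓞 K) ∈ q.asIdeal := by
    intro k
    rw [← cls_pow_eq_one h.hm hq hβ1 hβ2 hJ, hg, ← map_pow, ← map_one Art', Art'.injective.eq_iff]
  have hgv : g = (Art' (cls σ₂ _ (prJ (m * q.asIdeal) v hvq))) ^ f := by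
    rw [hg, hJdef, map_pow, map_pow]
  have hgres : res hle g = 1 := by
    rw [hg, IsRCF.res_art hle' hne' Set.finite_empty Set.finite_empty hd'.rcf.isRCF hd.rcf.isRCF,
      pr_cls]
    have h4 : cls σ₂ m (inc hle' J) = 1 := by
      rw [cls_eq_one_iff, coe_inc]
      exact ⟨β, oneMod_of_sub_one_mem hβ1, hβ2, by rw [hJ, coe_span_singleton]⟩
    rw [h4, map_one]
  -- the order is even
  have hpos : 0 < orderOf g := orderOf_pos g
  have heven : Even (orderOf g) := by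
    by_contra hodd
    rw [Nat.not_even_iff_odd] at hodd
    obtain ⟨w, hw1, hw2⟩ := (hgpow _).1 (pow_orderOf_eq_one g)
    obtain ⟨y, hy⟩ := hun w hw1
    have := q.isMaximal
    let _ : Field (𝓞 K ⧸ q.asIdeal) := Ideal.Quotient.field q.asIdeal
    have hb0 : Ideal.Quotient.mk q.asIdeal β ≠ 0 := by
      intro h0
      rw [Ideal.Quotient.eq_zero_iff_mem, ← Ideal.span_singleton_le_iff_mem, hβ,
        ← Ideal.dvd_iff_le] at h0
      exact hqv (eq_of_dvd_prime (q.prime.dvd_of_dvd_pow h0))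
    apply hβq
    refine pow_two_of_odd hb0 hodd (y := y) ?_
    rw [hy, ← map_pow]
    exact Ideal.Quotient.eq.2 hw2
  obtain ⟨j, hj⟩ := heven
  have hτ : g ^ j ≠ 1 := by
    intro h1
    have h3 := orderOf_dvd_of_pow_eq_one h1
    have h4 := Nat.le_of_dvd (by omega) h3
    omega
  have hτ2 : g ^ j * g ^ j = 1 := by
    rw [← pow_add, ← hj, pow_orderOf_eq_one]
  have hτF : res hle (g ^ j) = 1 := by rw [map_pow, hgres, one_pow]
  have hmem : g ^ j ∈ sg hd'.pre.mem hd'.pre.pos := by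
    rw [hgv, ← pow_mul]
    apply Subgroup.pow_mem
    rw [mem_sg]
    exact frob_mem_sg h.h2 h.hσ hne' hne1 hvq (h.tate _ hne' hle' hvq) hd'
  rw [mem_sg] at hmem
  have h5 := as_fibProd_of_inv hle hd'.pre.mem hd'.pre.pos hτ hτ2 hτF hmem 1
  rw [norm_prime_rel h.h2 h.hσ h.hm h.hm1 hq rfl hd hd' hle] at h5
  exact as_frob_of_norm hd.pre.mem hd.pre.pos h5

end

end Pool.Agent.STd
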