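import Pool.Agent.Lib.MP_1ef7cf_nt.RCF2

/-!
# Frobenius elements in two extensions
-/

open NumberField IsDedekindDomain nonZeroDivisors IntermediateField

namespace Pool.Agent.STd

open Pool.Agent.ST

variable {K : Type*} [Field K] [NumberField K] [Algebra K ℝ] {σ₂ : K →+* ℝ}

/-- `L` contains the image of the subfield `F` of the ray class field `H`. -/
theorem frob_transfer {m : Ideal (𝓞 K)} {H : IntermediateField K ℝ}
    {Art : RayClassGroup σ₂ m ≃* (H ≃ₐ[K] H)} (hr : IsRayClassField σ₂ m H Art)
    {F : IntermediateField K ℝ} [Normal K F] (hFH : F ≤ H)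
    {L : Type*} [Field L] [NumberField L] [Algebra K L] [IsGalois K L] (j : F →ₐ[K] L)
    {P : PrI L} {σ : L ≃ₐ[K] L} (hσ : IsFrob K P σ) (hq : ¬ (und K P).asIdeal ∣ m) (x : F) :
    σ (j x) = j (res hFH (Art (cls σ₂ m (prJ m (und K P) hq))) x) := by
  have := hr.finite
  have := hr.galois
  have : FiniteDimensional K F :=
    FiniteDimensional.of_injective (inclusion hFH).toLinearMap (inclusion hFH).injective
  have := numberField_of_fd F
  have := numberField_of_fd H
  let _ : Algebra F L := j.toRingHom.toAlgebra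
  have : IsScalarTower K F L := IsScalarTower.of_algebraMap_eq (fun x => (j.commutes x).symm)
  have h1 : IsFrob K (und F P) (σ.restrictNormal F) :=
    isFrob_und (fun x => σ.restrictNormal_commutes F x) hσ
  obtain ⟨P', hP', hun, hF⟩ := isFrob_res' hFH (und F P)
  have hund : und K P' = und K P := by rw [hP', und_und]
  obtain ⟨h2, h3⟩ := hr.isRCF.frobP P' (Set.notMem_empty _) (prJ m (und K P) hq)
    (by rw [coe_prJ, hund])
  have := hun h2
  have h4 := isFrob_unique h1 (hF _ h3)
  have h5 := σ.restrictNormal_commutes F x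
  rw [h4] at h5
  exact h5.symm

end Pool.Agent.STd
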