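import Pool.Agent.Lib.MP_1ef7cf_nt_d.CC

/-!
# Two extensions inside the complex numbers
-/

open NumberField IsDedekindDomain nonZeroDivisors IntermediateField

namespace Pool.Agent.STd

open Pool.Agent.ST

lemma restrict_lt {K Ω : Type*} [Field K] [Field Ω] [Algebra K Ω] {A B L : IntermediateField K Ω}
    (hA : A ≤ L) (hB : B ≤ L) (h : A < B) :
    IntermediateField.restrict hA < IntermediateField.restrict hB := by
  refine lt_of_le_of_ne ?_ ?_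
  · intro x hx
    rw [mem_restrict] at hx ⊢
    exact h.le hx
  · intro he
    apply h.ne
    rw [← lift_restrict hA, ← lift_restrict hB, he]

theorem exists_twoC {K : Type*} [Field K] [NumberField K] [Algebra K ℂ]
    {M M₁ M₂ : IntermediateField K ℂ} [FiniteDimensional K M₁] [FiniteDimensional K M₂]
    [IsGalois K M] [IsGalois K M₁] [IsGalois K M₂] (h1 : M < M₁) (h2 : M < M₂)
    (B : Set (PrI K)) (hB : B.Finite) :
    ∃ (L : IntermediateField K ℂ) (_ : NumberField L) (_ : IsGalois K L) (hL₁ : M₁ ≤ L)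
      (hL₂ : M₂ ≤ L) (P : PrI L) (σ : L ≃ₐ[K] L), und K P ∉ B ∧ IsFrob K P σ ∧
      (∀ x (hx : x ∈ M), σ ⟨x, hL₁ (h1.le hx)⟩ = ⟨x, hL₁ (h1.le hx)⟩) ∧
      (∃ x, ∃ hx : x ∈ M₁, σ ⟨x, hL₁ hx⟩ ≠ ⟨x, hL₁ hx⟩) ∧
      (∃ x, ∃ hx : x ∈ M₂, σ ⟨x, hL₂ hx⟩ ≠ ⟨x, hL₂ hx⟩) := by
  have hG : IsGalois K (M₁ ⊔ M₂ : IntermediateField K ℂ) := by
    have : Normal K (M₁ ⊔ M₂ : IntermediateField K ℂ) := inferInstance
    exact ⟨⟩
  have hN : NumberField (M₁ ⊔ M₂ : IntermediateField K ℂ) := NumberField.of_module_finite K _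
  have hL₁ : M₁ ≤ M₁ ⊔ M₂ := le_sup_left
  have hL₂ : M₂ ≤ M₁ ⊔ M₂ := le_sup_right
  have hL : M ≤ M₁ ⊔ M₂ := h1.le.trans hL₁
  have g0 : IsGalois K (IntermediateField.restrict hL) := IsGalois.of_algEquiv (restrictAlgEquiv hL)
  have g1 : IsGalois K (IntermediateField.restrict hL₁) :=
    IsGalois.of_algEquiv (restrictAlgEquiv hL₁)
  have g2 : IsGalois K (IntermediateField.restrict hL₂) :=
    IsGalois.of_algEquiv (restrictAlgEquiv hL₂)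
  obtain ⟨P, hP, -, σ, hσ, e0, ⟨x₁, hx₁, e1⟩, ⟨x₂, hx₂, e2⟩⟩ :=
    exists_two _ _ _ (restrict_lt hL hL₁ h1) (restrict_lt hL hL₂ h2) B hB
  refine ⟨M₁ ⊔ M₂, hN, hG, hL₁, hL₂, P, σ, hP, hσ, fun x hx => e0 _ ((mem_restrict hL _).2 hx),
    ⟨x₁, (mem_restrict hL₁ _).1 hx₁, e1⟩, ⟨x₂, (mem_restrict hL₂ _).1 hx₂, e2⟩⟩

end Pool.Agent.STd
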