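import Pool.Agent.Lib.MP_1ef7cf_nt.Mg.G003
import Pool.Agent.Lib.MP_1ef7cf_nt_d.FRB
import Pool.Agent.Lib.MP_1ef7cf_nt_c.Mg.G007
import Pool.Agent.Lib.MP_1ef7cf_nt_d.TR
import Pool.Agent.Lib.MP_1ef7cf_nt_d.TwoC

/-!
# The fixed field of the group `sg`
-/

set_option linter.unusedSectionVars false

open NumberField IsDedekindDomain nonZeroDivisors IntermediateField

namespace Pool.Agent.STd

open Pool.Agent.ST Pool.Agent.STb

section fixL

variable {K Ω : Type*} [Field K] [Field Ω] [Algebra K Ω] {L : IntermediateField K Ω}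

/-- the fixed field of an automorphism -/
noncomputable def fixL (σ : L ≃ₐ[K] L) : IntermediateField K Ω :=
  IntermediateField.lift (IntermediateField.fixedField (Subgroup.zpowers σ))

lemma mem_fixL (σ : L ≃ₐ[K] L) {z : Ω} (hz : z ∈ L) : z ∈ fixL σ ↔ σ ⟨z, hz⟩ = ⟨z, hz⟩ := by
  have h1 : z ∈ fixL σ ↔ (⟨z, hz⟩ : L) ∈ IntermediateField.fixedField (Subgroup.zpowers σ) :=
    IntermediateField.mem_lift (⟨z, hz⟩ : L)
  rw [h1, IntermediateField.mem_fixedField_iff]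
  constructor
  · intro h
    exact h σ (Subgroup.mem_zpowers σ)
  · intro h τ hτ
    obtain ⟨k, rfl⟩ := Subgroup.mem_zpowers_iff.1 hτ
    have h2 : σ ∈ MulAction.stabilizer (L ≃ₐ[K] L) (⟨z, hz⟩ : L) := h
    exact (MulAction.stabilizer (L ≃ₐ[K] L) (⟨z, hz⟩ : L)).zpow_mem h2 k

lemma fixL_le (σ : L ≃ₐ[K] L) : fixL σ ≤ L := IntermediateField.lift_le _

end fixL

variable {K : Type*} [Field K] [NumberField K] [Algebra K ℝ] {σ₂ : K →+* ℝ}
  {m : Ideal (𝓞 K)} {v q : PrI K} {H H' : IntermediateField K ℝ}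
  {Art : RayClassGroup σ₂ m ≃* (H ≃ₐ[K] H)}

/-- the inclusion of the real numbers in the complex numbers, over `K` -/
noncomputable def jR (K : Type*) [Field K] [Algebra K ℝ] : ℝ →ₐ[K] ℂ := IsScalarTower.toAlgHom K ℝ ℂ

lemma jR_apply (x : ℝ) : jR K x = (x : ℂ) := rfl

lemma adjoin_coe (x : ℝ) : K⟮(x : ℂ)⟯ = K⟮x⟯.map (jR K) := by
  rw [IntermediateField.adjoin_map, Set.image_singleton, jR_apply]

/-- a real algebraic number in a Galois extension -/
lemma adjoin_coe_galois {x : ℝ} [IsGalois K K⟮x⟯] : IsGalois K K⟮(x : ℂ)⟯ := by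
  rw [adjoin_coe]
  exact IsGalois.of_algEquiv (IntermediateField.equivMap K⟮x⟯ (jR K))

/-- transfer of Frobenius elements for real numbers in the ray class field -/
lemma frob_real {m : Ideal (𝓞 K)} {H : IntermediateField K ℝ}
    {Art : RayClassGroup σ₂ m ≃* (H ≃ₐ[K] H)} (hr : IsRayClassField σ₂ m H Art)
    {L : IntermediateField K ℂ} [NumberField L] [IsGalois K L] {P : PrI L} {σ : L ≃ₐ[K] L}
    (hσ : IsFrob K P σ) (hq : ¬ (und K P).asIdeal ∣ m) {x : ℝ} (hx : x ∈ H)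
    (hxL : (x : ℂ) ∈ L) (hfix : act (Art (cls σ₂ m (prJ m (und K P) hq))) x = x) :
    σ ⟨(x : ℂ), hxL⟩ = ⟨(x : ℂ), hxL⟩ := by
  have := hr.finite
  have hab : IsAbelianGalois K H := hr.isRCF.abelian
  have hFH : K⟮x⟯ ≤ H := adjoin_simple_le_iff.2 hx
  have : IsAbelianGalois K K⟮x⟯ := isAbelianGalois_of_le hFH
  have hL : K⟮(x : ℂ)⟯ ≤ L := adjoin_simple_le_iff.2 hxL
  have hmem : ∀ y : K⟮x⟯, ((jR K).comp K⟮x⟯.val) y ∈ L.toSubalgebra := by
    intro y
    apply hL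
    rw [adjoin_coe]
    exact ⟨(y : ℝ), y.2, rfl⟩
  let j : K⟮x⟯ →ₐ[K] L := ((jR K).comp K⟮x⟯.val).codRestrict L.toSubalgebra hmem
  have h1 := frob_transfer hr hFH j hσ hq ⟨x, mem_adjoin_simple_self K x⟩
  have h2 : res hFH (Art (cls σ₂ m (prJ m (und K P) hq))) ⟨x, mem_adjoin_simple_self K x⟩ =
      ⟨x, mem_adjoin_simple_self K x⟩ := by
    apply Subtype.ext
    rw [← act_of_mem (res hFH (Art (cls σ₂ m (prJ m (und K P) hq)))) (mem_adjoin_simple_self K x),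
      act_res hFH _ (mem_adjoin_simple_self K x)]
    exact hfix
  rw [h2] at h1
  exact h1

lemma coe_zpow_unit (ε : (𝓞 K)ˣ) (k : ℤ) :
    (((ε ^ k : (𝓞 K)ˣ) : 𝓞 K) : K) = ((ε : 𝓞 K) : K) ^ k := by
  have h := congrArg Units.val (map_zpow (Units.map (algebraMap (𝓞 K) K : 𝓞 K →* K)) ε k)
  rw [Units.val_zpow_eq_zpow_val] at h
  exact h

lemma coe_neg_unit (ε : (𝓞 K)ˣ) : (((-ε : (𝓞 K)ˣ) : 𝓞 K) : K) = -((ε : 𝓞 K) : K) := by
  rw [Units.val_neg]
  exact map_neg (algebraMap (𝓞 K) K) _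

lemma finite_two (K : Type*) [Field K] [NumberField K] :
    {q : PrI K | (2 : 𝓞 K) ∈ q.asIdeal}.Finite := by
  have h2 : Ideal.span {(2 : 𝓞 K)} ≠ ⊥ := by
    rw [Ne, Ideal.span_singleton_eq_bot]; norm_num
  refine (finite_dvd h2).subset ?_
  intro q hq
  exact Ideal.dvd_iff_le.2 ((Ideal.span_singleton_le_iff_mem _).2 hq)

theorem claimA (h : Hyp σ₂ m v) {u : ℝ} (hd : SData σ₂ m H Art u) {N f : ℕ} {β : 𝓞 K}
    (hβ : Ideal.span {β} = v.asIdeal ^ f) (hβ1 : β - 1 ∈ m) (hβ2 : 0 < σ₂ (β : K))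
    (hN : ¬ 2 ^ N ∣ 2 * f) {ε₀ : (𝓞 K)ˣ}
    (hε₀ : ∀ w : (𝓞 K)ˣ, ∃ k : ℤ, w = ε₀ ^ k ∨ w = -ε₀ ^ k) {x : ℝ} (hx : x ∈ H)
    (hfix : ∀ σ : H ≃ₐ[K] H, AS K (act σ u / u) → act σ x = x) :
    (x : ℂ) ∈ MN ((ε₀ : 𝓞 K) : K) N := by
  by_contra hxM
  have hfd := hd.rcf.finite
  have hab : IsAbelianGalois K H := hd.rcf.isRCF.abelian
  set e : K := ((ε₀ : 𝓞 K) : K) with he
  have hFH : K⟮x⟯ ≤ H := adjoin_simple_le_iff.2 hx
  have : IsAbelianGalois K K⟮x⟯ := isAbelianGalois_of_le hFH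
  have : FiniteDimensional K K⟮x⟯ := fd_of_le hFH
  have gx : IsGalois K K⟮(x : ℂ)⟯ := adjoin_coe_galois
  have fx : FiniteDimensional K K⟮(x : ℂ)⟯ := by
    rw [adjoin_coe]
    exact Module.Finite.equiv (IntermediateField.equivMap K⟮x⟯ (jR K)).toLinearEquiv
  have gM : IsGalois K (MN e N) := gal_MN e N
  have fM : FiniteDimensional K (MN e N) := fd_MN e N
  have gM₁ := gal_MNβ e (β : K) N
  have fM₁ := fd_MNβ e (β : K) N
  have gM₂ : IsGalois K (MN e N ⊔ K⟮(x : ℂ)⟯ : IntermediateField K ℂ) := by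
    have : Normal K (MN e N ⊔ K⟮(x : ℂ)⟯ : IntermediateField K ℂ) := inferInstance
    exact ⟨⟩
  set T : IntermediateField K ℂ :=
    IntermediateField.adjoin K {z : ℂ | z ^ (2 ^ N) = algebraMap K ℂ (β : K)} with hT
  obtain ⟨w, hw⟩ := IsAlgClosed.exists_pow_nat_eq (algebraMap K ℂ (β : K))
    (show 0 < 2 ^ N by positivity)
  have hwT : w ∈ T := subset_adjoin K _ hw
  have h1 : MN e N < MN e N ⊔ T := by
    refine lt_of_le_of_ne le_sup_left fun hh => ?_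
    apply notMem_MN hN hβ ε₀ hw
    rw [← he, hh]
    exact (le_sup_right : T ≤ _) hwT
  have h2 : MN e N < MN e N ⊔ K⟮(x : ℂ)⟯ := by
    refine lt_of_le_of_ne le_sup_left fun hh => ?_
    apply hxM
    rw [hh]
    exact (le_sup_right : K⟮(x : ℂ)⟯ ≤ _) (mem_adjoin_simple_self K _)
  obtain ⟨L, hNL, hGL, hL₁, hL₂, P, σ, hPB, hσ, e0, ⟨x₁, hx₁, e1⟩, ⟨x₂, hx₂, e2⟩⟩ :=
    exists_twoC h1 h2 ({q | q.asIdeal ∣ m} ∪ {q | (2 : 𝓞 K) ∈ q.asIdeal} ∪ {v})
      (((finite_dvd h.hm).union (finite_two K)).union (Set.finite_singleton v))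
  rw [Set.mem_union, Set.mem_union, not_or, not_or] at hPB
  obtain ⟨⟨hq, hq2⟩, hqv⟩ := hPB
  have hq : ¬ (und K P).asIdeal ∣ m := hq
  have hq2 : (2 : 𝓞 K) ∉ (und K P).asIdeal := hq2
  have hqv : und K P ≠ v := hqv
  have hML : MN e N ≤ L := h1.le.trans hL₁
  have hfM : MN e N ≤ fixL σ := fun z hz => (mem_fixL σ (hML hz)).2 (e0 z hz)
  -- roots of unity
  have hζ := Complex.isPrimitiveRoot_exp (2 ^ (N + 1)) (by positivity)
  set ζ : ℂ := Complex.exp (2 * Real.pi * Complex.I / (2 ^ (N + 1) : ℕ)) with hζdef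
  have hζM : ζ ∈ MN e N := subset_adjoin K _ (Or.inr hζ.pow_eq_one)
  have hζneg : ζ ^ (2 ^ N) = -1 := by
    have h3 : (ζ ^ (2 ^ N)) ^ 2 = 1 := by rw [← pow_mul, ← pow_succ]; exact hζ.pow_eq_one
    rcases sq_eq_one_iff_of_side_conds h3 with h4 | h4
    · exfalso
      have h5 := hζ.pow_ne_one_of_pos_of_lt (l := 2 ^ N) (by positivity)
        (Nat.pow_lt_pow_right one_lt_two (Nat.lt_succ_self N))
      exact h5 h4
    · exact h4
  have hdvd : 2 ^ (N + 1) ∣ pn (und K P) - 1 := by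
    have hζL : IsPrimitiveRoot (⟨ζ, hML hζM⟩ : L) (2 ^ (N + 1)) := by
      rw [← IsPrimitiveRoot.coe_submonoidClass_iff]
      exact hζ
    exact (fix_root_iff hσ hq2 hζL).1 (e0 ζ hζM)
  have hdvd' : 2 ^ N ∣ pn (und K P) - 1 := (pow_dvd_pow 2 (Nat.le_succ N)).trans hdvd
  obtain ⟨ρ, hρ⟩ := IsAlgClosed.exists_pow_nat_eq (algebraMap K ℂ e)
    (show 0 < 2 ^ N by positivity)
  have hρM : ρ ∈ MN e N := subset_adjoin K _ (Or.inl hρ)
  have hun : ∀ w : (𝓞 K)ˣ, EU σ₂ m w →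
      ∃ y : 𝓞 K ⧸ (und K P).asIdeal, y ^ (2 ^ N) = Ideal.Quotient.mk _ (w : 𝓞 K) := by
    intro w _
    have hw' : (w : 𝓞 K) ∉ (und K P).asIdeal := fun hh =>
      (und K P).isPrime.ne_top (Ideal.eq_top_of_isUnit_mem _ hh w.isUnit)
    obtain ⟨z, hzM, hz⟩ : ∃ z ∈ MN e N, z ^ (2 ^ N) = algebraMap K ℂ ((w : 𝓞 K) : K) := by
      obtain ⟨k, hk | hk⟩ := hε₀ w
      · refine ⟨ρ ^ k, zpow_mem hρM k, ?_⟩
        rw [← zpow_natCast, ← zpow_mul, mul_comm, zpow_mul, zpow_natCast, hρ, hk, ← map_zpow₀]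
        congr 1
        rw [he, coe_zpow_unit]
      · refine ⟨ζ * ρ ^ k, mul_mem hζM (zpow_mem hρM k), ?_⟩
        rw [mul_pow, hζneg, ← zpow_natCast, ← zpow_mul, mul_comm k, zpow_mul, zpow_natCast, hρ, hk,
          ← map_zpow₀, neg_one_mul, ← map_neg]
        congr 1
        rw [he, coe_neg_unit, coe_zpow_unit]
    refine (fix_iff_pow hσ hq2 hdvd' hw' (x := ⟨z, hML hzM⟩) ?_).1 (e0 z hzM)
    apply Subtype.ext
    exact hz
  have hβq : ¬ ∃ y : 𝓞 K ⧸ (und K P).asIdeal, y ^ (2 ^ N) = Ideal.Quotient.mk _ β := by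
    intro hy
    have hβP : β ∉ (und K P).asIdeal := by
      intro hh
      have h3 : (und K P).asIdeal ∣ v.asIdeal ^ f := by
        rw [← hβ]; exact Ideal.dvd_iff_le.2 ((Ideal.span_singleton_le_iff_mem _).2 hh)
      have h4 := (und K P).prime.dvd_of_dvd_pow h3
      exact hqv (eq_of_dvd_prime h4)
    apply e1
    have hTf : MN e N ⊔ T ≤ fixL σ := by
      refine sup_le hfM ?_
      rw [hT, adjoin_le_iff]
      intro z hz
      have hzL : z ∈ L := hL₁ ((le_sup_right : T ≤ MN e N ⊔ T) (subset_adjoin K _ hz))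
      refine (mem_fixL σ hzL).2 ((fix_iff_pow hσ hq2 hdvd' hβP (x := ⟨z, hzL⟩) ?_).2 hy)
      apply Subtype.ext
      exact hz
    exact (mem_fixL σ _).1 (hTf hx₁)
  have hAS := frob_mem_of_even h hq hqv hq2 hd hβ hβ1 hβ2 hun hβq
  have hxL : (x : ℂ) ∈ L := hL₂ ((le_sup_right : K⟮(x : ℂ)⟯ ≤ _) (mem_adjoin_simple_self K _))
  have h5 := frob_real hd.rcf hσ hq hx hxL (hfix _ hAS)
  apply e2
  have hf2 : MN e N ⊔ K⟮(x : ℂ)⟯ ≤ fixL σ :=
    sup_le hfM (adjoin_simple_le_iff.2 ((mem_fixL σ hxL).2 h5))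
  exact (mem_fixL σ _).1 (hf2 hx₂)

/-- finitely many subfields of a finite extension -/
lemma finite_subfields (M : IntermediateField K ℂ) [FiniteDimensional K M] :
    {F : IntermediateField K ℝ | F.map (jR K) ≤ M}.Finite := by
  have : Finite (IntermediateField K M) :=
    Field.finite_intermediateField_of_exists_primitive_element K M
      (Field.exists_primitive_element K M)
  let g : {F : IntermediateField K ℝ | F.map (jR K) ≤ M} → IntermediateField K M :=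
    fun F => IntermediateField.restrict F.2
  have hg : Function.Injective g := by
    intro F F' hFF
    apply Subtype.ext
    apply IntermediateField.map_injective (jR K)
    rw [← lift_restrict F.2, ← lift_restrict F'.2]
    exact congrArg IntermediateField.lift hFF
  have : Finite {F : IntermediateField K ℝ | F.map (jR K) ≤ M} := Finite.of_injective g hg
  exact Set.toFinite _

lemma SData.val {m : Ideal (𝓞 K)} {H : IntermediateField K ℝ}
    {Art : RayClassGroup σ₂ m ≃* (H ≃ₐ[K] H)} {u : ℝ} (hd : SData σ₂ m H Art u) :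
    u = Real.exp (-2 * zd σ₂ m 1) := by
  have h := hd.act 1
  rwa [map_one, act_one_left hd.pre.mem] at h

lemma SData.field_eq {m : Ideal (𝓞 K)} (hm : m ≠ ⊥) {H H' : IntermediateField K ℝ}
    {Art : RayClassGroup σ₂ m ≃* (H ≃ₐ[K] H)} {Art' : RayClassGroup σ₂ m ≃* (H' ≃ₐ[K] H')}
    (hr : IsRayClassField σ₂ m H Art) (hr' : IsRayClassField σ₂ m H' Art') : H = H' :=
  le_antisymm (IsRCF.le le_rfl hm Set.finite_empty Set.finite_empty hr'.isRCF hr.isRCF)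
    (IsRCF.le le_rfl hm Set.finite_empty Set.finite_empty hr.isRCF hr'.isRCF)

/-- fixed field of a subgroup, in the real numbers -/
lemma mem_lift_fixedField {H : IntermediateField K ℝ} (S : Subgroup (H ≃ₐ[K] H)) {x : ℝ}
    (hx : x ∈ H) : x ∈ IntermediateField.lift (IntermediateField.fixedField S) ↔
      ∀ σ ∈ S, act σ x = x := by
  rw [IntermediateField.mem_lift (⟨x, hx⟩ : H), IntermediateField.mem_fixedField_iff]
  constructor
  · intro h σ hσ
    rw [act_of_mem σ hx, h σ hσ]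
  · intro h σ hσ
    apply Subtype.ext
    rw [← act_of_mem σ hx, h σ hσ]

/-- Galois correspondence -/
lemma mem_of_fix {H : IntermediateField K ℝ} [FiniteDimensional K H] [IsGalois K H]
    (S : Subgroup (H ≃ₐ[K] H)) {γ : H ≃ₐ[K] H}
    (h : ∀ x ∈ IntermediateField.lift (IntermediateField.fixedField S), act γ x = x) : γ ∈ S := by
  rw [← IntermediateField.fixingSubgroup_fixedField S, IntermediateField.mem_fixingSubgroup_iff]
  intro x hx
  have h1 := h x ((IntermediateField.mem_lift x).2 hx)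
  rw [act_coe] at h1
  exact Subtype.ext h1

/-- Fermat's little theorem -/
lemma pow_pn_sub_one_mem {q : PrI K} {a : 𝓞 K} (ha : a ∉ q.asIdeal) :
    a ^ (pn q - 1) - 1 ∈ q.asIdeal := by
  have h0 : Ideal.Quotient.mk q.asIdeal a ≠ 0 := by
    rwa [Ne, Ideal.Quotient.eq_zero_iff_mem]
  have h1 := (exists_pow_iff (q := q) (n := 1) (s := pn q - 1) one_pos (one_mul _).symm h0).1
    ⟨_, pow_one _⟩
  rw [← map_pow, ← map_one (Ideal.Quotient.mk _), Ideal.Quotient.eq] at h1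
  exact h1

theorem claimC (h : Hyp σ₂ m v) (c : ℕ) {u : ℝ} (hd : SData σ₂ m H Art u) :
    ∃ B : Set (PrI K), B.Finite ∧ v ∈ B ∧ ∀ q : PrI K, q ∉ B → ¬ q.asIdeal ∣ m →
      ¬ 2 ^ (c + 1) ∣ pn q - 1 →
      ∀ {H' : IntermediateField K ℝ}
        {Art' : RayClassGroup σ₂ (m * q.asIdeal) ≃* (H' ≃ₐ[K] H')} {u' : ℝ},
        SData σ₂ (m * q.asIdeal) H' Art' u' → ∀ γ : H' ≃ₐ[K] H', (∀ x ∈ H, act γ x = x) →
        AS K (act γ u' / u') := by
  classical
  obtain ⟨f, β, hf0, hβ, hβ1, hβ2⟩ := exists_beta h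
  obtain ⟨ε₀, hε₀, -⟩ := exists_fund h.h2
  obtain ⟨a, o, ho, hao⟩ := Nat.exists_eq_two_pow_mul_odd (n := 2 * f) (by omega)
  set N := a + (c + 1) with hN
  have hNq : ∀ s : ℕ, ¬ 2 ^ (c + 1) ∣ s → ¬ 2 ^ N ∣ 2 * (f * s) := by
    intro s hs hd
    apply hs
    rw [← mul_assoc, hao, hN, pow_add, mul_assoc] at hd
    have h1 := Nat.dvd_of_mul_dvd_mul_left (by positivity) hd
    exact (Nat.Coprime.pow_left _ (Nat.coprime_two_left.2 ho)).dvd_of_dvd_mul_left h1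
  let Q := {q : PrI K // q ≠ v ∧ ¬ q.asIdeal ∣ m ∧ ¬ 2 ^ (c + 1) ∣ pn q - 1}
  have hH : ∀ q : Q, Hyp σ₂ (m * q.1.asIdeal) v := fun q => h.mul q.2.1
  choose Hq Aq uq hq using fun q : Q => (hH q).stark _ (hH q).hm le_rfl (hH q).hv
  have hfd : ∀ q, FiniteDimensional K (Hq q) := fun q => (hq q).rcf.finite
  have hab : ∀ q, IsAbelianGalois K (Hq q) := fun q => (hq q).rcf.isRCF.abelian
  let F : Q → IntermediateField K ℝ := fun q =>
    IntermediateField.lift (IntermediateField.fixedField (sg (hq q).pre.mem (hq q).pre.pos))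
  have hFH : ∀ q, F q ≤ Hq q := fun q => IntermediateField.lift_le _
  have hFM : ∀ q, F q ∈ {F : IntermediateField K ℝ | F.map (jR K) ≤ MN ((ε₀ : 𝓞 K) : K) N} := by
    intro q
    change (F q).map (jR K) ≤ _
    rintro _ ⟨x, hx, rfl⟩
    have hx' : x ∈ F q := hx
    have hxH := hFH q hx'
    have hβq : β ∉ q.1.asIdeal := by
      intro hh
      have h3 : q.1.asIdeal ∣ v.asIdeal ^ f := by
        rw [← hβ]; exact Ideal.dvd_iff_le.2 ((Ideal.span_singleton_le_iff_mem _).2 hh)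
      exact q.2.1 (eq_of_dvd_prime (q.1.prime.dvd_of_dvd_pow h3))
    refine claimA (hH q) (hq q) (N := N) (f := f * (pn q.1 - 1)) (β := β ^ (pn q.1 - 1))
      ?_ ?_ ?_ (hNq _ q.2.2.2) hε₀ hxH ?_
    · rw [← Ideal.span_singleton_pow, hβ, pow_mul]
    · have hcop : IsCoprime m q.1.asIdeal := (coprime_prime_iff.2 q.2.2.1).symm
      rw [Ideal.mul_eq_inf_of_isCoprime hcop]
      refine ⟨?_, pow_pn_sub_one_mem hβq⟩
      have h4 : β ^ (pn q.1 - 1) - 1 ∈ m := by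
        have h5 := sub_dvd_pow_sub_pow β 1 (pn q.1 - 1)
        rw [one_pow] at h5
        exact m.mem_of_dvd h5 hβ1
      exact h4
    · have h6 : ((β ^ (pn q.1 - 1) : 𝓞 K) : K) = (β : K) ^ (pn q.1 - 1) :=
        map_pow (algebraMap (𝓞 K) K) _ _
      rw [h6, map_pow]
      exact pow_pos hβ2 _
    · intro σ hσ
      exact (mem_lift_fixedField _ hxH).1 hx' σ (mem_sg.2 hσ)
  let bad : Set Q := {q | ∃ γ : Hq q ≃ₐ[K] Hq q, (∀ x ∈ H, act γ x = x) ∧
    ¬ AS K (act γ (uq q) / uq q)}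
  have hbad : bad.Finite := by
    apply Set.Finite.of_finite_image (f := F)
    · have := fd_MN ((ε₀ : 𝓞 K) : K) N
      refine (finite_subfields (MN ((ε₀ : 𝓞 K) : K) N)).subset ?_
      rintro _ ⟨q, -, rfl⟩
      exact hFM q
    · rintro q ⟨γ, hγ, hγ'⟩ q' - hqq
      by_contra hne
      have hne' : q.1 ≠ q'.1 := fun hh => hne (Subtype.ext hh)
      obtain ⟨M, AM, uM, hM⟩ := ((hH q).mul q'.2.1).stark _ ((hH q).mul q'.2.1).hm le_rfl
        ((hH q).mul q'.2.1).hv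
      have hinf : Hq q ⊓ Hq q' ≤ H := inf_le h.hm hne' q'.2.2.1 rfl rfl rfl hd.rcf (hq q).rcf
        (hq q').rcf hM.rcf
      apply hγ'
      have h6 : γ ∈ sg (hq q).pre.mem (hq q).pre.pos := by
        apply mem_of_fix
        intro x hx
        apply hγ
        apply hinf
        refine ⟨hFH q hx, ?_⟩
        have h7 : x ∈ F q' := by rw [← hqq]; exact hx
        exact hFH q' h7
      exact h6
  refine ⟨{v} ∪ Subtype.val '' bad, (Set.finite_singleton v).union (hbad.image _), Or.inl rfl, ?_⟩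
  intro q hqB hqm hqc H' Art' u' hd' γ hγ
  rw [Set.mem_union, not_or] at hqB
  let q₀ : Q := ⟨q, hqB.1, hqm, hqc⟩
  obtain rfl : H' = Hq q₀ := SData.field_eq (hH q₀).hm hd'.rcf (hq q₀).rcf
  have hu : u' = uq q₀ := by rw [SData.val hd', SData.val (hq q₀)]
  rw [hu]
  by_contra hcon
  exact hqB.2 ⟨q₀, ⟨γ, hγ, hcon⟩, rfl⟩

end Pool.Agent.STd
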