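import Pool.Agent.Lib.MP_1ef7cf_nt_d.GEN

/-!
# Removal of a prime from the modulus
-/

set_option linter.unusedSectionVars false

open NumberField IsDedekindDomain nonZeroDivisors IntermediateField

namespace Pool.Agent.STd

open Pool.Agent.ST Pool.Agent.STb

section gal

variable {K : Type*} [Field K] [Algebra K ℝ] {H F L : IntermediateField K ℝ}

lemma exists_involution (h : H ≤ L) [FiniteDimensional K L] [Normal K H]
    (heven : Even (fib h (1 : H ≃ₐ[K] H)).card) :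
    ∃ τ : L ≃ₐ[K] L, τ ≠ 1 ∧ τ * τ = 1 ∧ res h τ = 1 := by
  classical
  have hcard : Nat.card (res h).ker = (fib h (1 : H ≃ₐ[K] H)).card := by
    rw [← Nat.card_eq_finsetCard]
    refine Nat.card_congr (Equiv.subtypeEquivRight fun γ => ?_)
    rw [mem_fib, MonoidHom.mem_ker]
  have h2 : 2 ∣ Nat.card (res h).ker := by rw [hcard]; exact heven.two_dvd
  have : Fact (Nat.Prime 2) := ⟨Nat.prime_two⟩
  obtain ⟨τ, hτ⟩ := exists_prime_orderOf_dvd_card' 2 h2
  have h3 : orderOf (τ : L ≃ₐ[K] L) = 2 := by rw [← hτ]; exact Subgroup.orderOf_coe τ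
  refine ⟨τ, ?_, ?_, τ.2⟩
  · intro h1
    rw [h1, orderOf_one] at h3
    norm_num at h3
  · rw [← pow_two, ← h3]; exact pow_orderOf_eq_one _

lemma card_fib_mul (h1 : H ≤ F) (h2 : F ≤ L) [FiniteDimensional K L] [FiniteDimensional K F]
    [Normal K H] [Normal K F] [Normal K L] :
    (fib (h1.trans h2) (1 : H ≃ₐ[K] H)).card =
      (fib h1 (1 : H ≃ₐ[K] H)).card * (fib h2 (1 : F ≃ₐ[K] F)).card := by
  classical
  have hmap : ∀ γ ∈ fib (h1.trans h2) (1 : H ≃ₐ[K] H), res h2 γ ∈ fib h1 (1 : H ≃ₐ[K] H) := by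
    intro γ hγ
    rw [mem_fib] at hγ ⊢
    rw [res_res, hγ]
  rw [Finset.card_eq_sum_card_fiberwise hmap, Finset.sum_const_nat (m := (fib h2 1).card)]
  intro σ hσ
  rw [← card_fib h2 σ]
  congr 1
  ext γ
  rw [Finset.mem_filter, mem_fib, mem_fib]
  rw [mem_fib] at hσ
  constructor
  · exact fun h => h.2
  · intro h
    refine ⟨?_, h⟩
    rw [← res_res h1 h2, h, hσ]

end gal

variable {K : Type*} [Field K] [NumberField K] [Algebra K ℝ] {σ₂ : K →+* ℝ}
  {m : Ideal (𝓞 K)} {v : PrI K}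

/-- the fixed field of an involution -/
lemma fix_involution {F L : IntermediateField K ℝ} [FiniteDimensional K L] [IsAbelianGalois K L] {τ : L ≃ₐ[K] L} (hτ : τ ≠ 1)
    (hτ2 : τ * τ = 1) (hF : F = IntermediateField.lift (IntermediateField.fixedField
      (Subgroup.zpowers τ))) [Normal K F] (hFL : F ≤ L) :
    res hFL τ = 1 ∧ (fib hFL (1 : F ≃ₐ[K] F)).card = 2 := by
  classical
  have hgal : IsGalois K L := inferInstance
  have hfix : ∀ x ∈ F, act τ x = x := by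
    intro x hx
    have hx' := hx
    rw [hF] at hx'
    exact (mem_lift_fixedField _ (hFL hx)).1 hx' τ (Subgroup.mem_zpowers τ)
  have h1 : res hFL τ = 1 := (res_eq_one_iff hFL τ).2 hfix
  refine ⟨h1, ?_⟩
  have h2 : fib hFL (1 : F ≃ₐ[K] F) = {1, τ} := by
    ext γ
    rw [mem_fib, Finset.mem_insert, Finset.mem_singleton]
    constructor
    · intro hγ
      have h3 : γ ∈ Subgroup.zpowers τ := by
        apply mem_of_fix
        intro x hx
        rw [← hF] at hx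
        exact (res_eq_one_iff hFL γ).1 hγ x hx
      obtain ⟨k, rfl⟩ := Subgroup.mem_zpowers_iff.1 h3
      rcases Int.even_or_odd' k with ⟨l, rfl | rfl⟩
      · left
        rw [zpow_mul, zpow_ofNat, pow_two, hτ2, one_zpow]
      · right
        rw [zpow_add, zpow_mul, zpow_ofNat, pow_two, hτ2, one_zpow, one_mul, zpow_one]
    · rintro (rfl | rfl)
      · exact map_one _
      · exact h1
  rw [h2, Finset.card_pair (Ne.symm hτ)]

/-- each element twice -/
lemma gen_two {G ι Ω : Type*} [Group G] [Finite G] (φ : ι → G) (q : ι → Ω)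
    (hgen : ∀ B : Set Ω, B.Finite → Subgroup.closure {σ | ∃ i, q i ∉ B ∧ φ i = σ} = ⊤) :
    Subgroup.closure {σ | ∃ i j, i ≠ j ∧ φ i = σ ∧ φ j = σ} = ⊤ := by
  classical
  have hfin : (q '' {i : ι | ¬ ∃ j, i ≠ j ∧ φ j = φ i}).Finite := by
    apply Set.Finite.image
    apply Set.Finite.of_finite_image (f := φ) (Set.toFinite _)
    intro i hi j hj hij
    by_contra hne
    exact hi ⟨j, hne, hij.symm⟩
  rw [eq_top_iff, ← hgen _ hfin, Subgroup.closure_le]
  rintro σ ⟨i, hi, rfl⟩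
  apply Subgroup.subset_closure
  by_contra hcon
  apply hi
  refine ⟨i, ?_, rfl⟩
  rintro ⟨j, hj, hj2⟩
  exact hcon ⟨i, j, hj, rfl, hj2⟩

lemma EU.mono' {n n' : Ideal (𝓞 K)} (h : n' ≤ n) {w : (𝓞 K)ˣ} (hw : EU σ₂ n' w) : EU σ₂ n w :=
  ⟨h hw.1, hw.2⟩

/-- The unit is a Stark unit with abelian square root if the assertion holds. -/
lemma SData.as_of_starkTate {n : Ideal (𝓞 K)} (hn : n ≠ ⊥) {L : IntermediateField K ℝ}
    {A : RayClassGroup σ₂ n ≃* (L ≃ₐ[K] L)} {w : ℝ} (hd : SData σ₂ n L A w)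
    (hst : StarkTate σ₂ n) : AS K w := by
  obtain ⟨L', A', w', d⟩ := hst.data
  obtain rfl : L' = L := SData.field_eq hn d.rcf hd.rcf
  have h1 : w' = w := by
    have h2 := d.act 1
    rw [map_one, act_one_left d.stark.mem] at h2
    rw [h2, ← SData.val hd]
  subst h1
  have := d.rcf.finite
  exact as_of_ab d.stark.mem d.stark.pos'.le d.stark.ab

theorem final_step (h : Hyp σ₂ m v) (hE : EE σ₂ m)
    (hcase : (∀ w : (𝓞 K)ˣ, EU σ₂ m w → ∃ x : (𝓞 K)ˣ, w = x ^ 4) ∨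
      (∀ n : Ideal (𝓞 K), n ≠ ⊥ → n ≤ m → ¬ v.asIdeal ∣ n →
        (∀ w : (𝓞 K)ˣ, EU σ₂ n w → ∃ w' : (𝓞 K)ˣ, EU σ₂ m w' ∧ w = w' ^ 2) →
        StarkTate σ₂ n)) : StarkTate σ₂ m := by
  classical
  obtain ⟨H, Art, u, hd⟩ := h.stark m h.hm le_rfl h.hv
  have hfdH := hd.rcf.finite
  have habH : IsAbelianGalois K H := hd.rcf.isRCF.abelian
  obtain ⟨c, hc2, hgenc⟩ := gen_primes h.h2 h.hm hd.rcf hE
  obtain ⟨B, hB, hvB, hBm⟩ := claimC h c hd
  let ι := {q : PrI K // GoodQ σ₂ m c q ∧ q ∉ B}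
  have hqv : ∀ i : ι, i.1 ≠ v := fun i hi => i.2.2 (hi ▸ hvB)
  have hHi : ∀ i : ι, Hyp σ₂ (m * i.1.asIdeal) v := fun i => h.mul (hqv i)
  choose L ArtL w hL using fun i : ι => (hHi i).stark _ (hHi i).hm le_rfl (hHi i).hv
  have hfd : ∀ i, FiniteDimensional K (L i) := fun i => (hL i).rcf.finite
  have hab : ∀ i, IsAbelianGalois K (L i) := fun i => (hL i).rcf.isRCF.abelian
  have hle : ∀ i : ι, m * i.1.asIdeal ≤ m := fun i => Ideal.mul_le_left
  have hHL : ∀ i, H ≤ L i := fun i => IsRCF.le (hle i) (hHi i).hm Set.finite_empty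
    Set.finite_empty (hL i).rcf.isRCF hd.rcf.isRCF
  choose Bi hBi hvBi hBim using fun i : ι => claimC (hHi i) c (hL i)
  have hdvd : ∀ i : ι, ¬ i.1.asIdeal ∣ m := fun i => i.2.1.ndvd
  -- the two types
  let T2 : ι → Prop := fun i =>
    ∀ w : (𝓞 K)ˣ, EU σ₂ (m * i.1.asIdeal) w → ∃ w' : (𝓞 K)ˣ, EU σ₂ m w' ∧ w = w' ^ 2
  have hchoice : ∀ i : ι, ∃ F : IntermediateField K ℝ, ∃ (hHF : H ≤ F) (hFL : F ≤ L i)
      (_ : FiniteDimensional K F) (_ : IsAbelianGalois K F), AS K (fibProd hFL (w i) 1) ∧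
      Even (fib hHF (1 : H ≃ₐ[K] H)).card ∧
      ((T2 i ∧ ∀ n : Ideal (𝓞 K), n ≠ ⊥ → n ≤ m → ¬ v.asIdeal ∣ n →
        (∀ w : (𝓞 K)ˣ, EU σ₂ n w → ∃ w' : (𝓞 K)ˣ, EU σ₂ m w' ∧ w = w' ^ 2) → StarkTate σ₂ n) ∨
       (∃ τ : L i ≃ₐ[K] L i, τ ≠ 1 ∧ τ * τ = 1 ∧ res (hHL i) τ = 1 ∧
        F = IntermediateField.lift (IntermediateField.fixedField (Subgroup.zpowers τ)))) := by
    intro i
    by_cases hT1 : ∀ w : (𝓞 K)ˣ, EU σ₂ m w →
      ∃ x : 𝓞 K ⧸ i.1.asIdeal, x ^ 4 = Ideal.Quotient.mk i.1.asIdeal w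
    · -- type I
      have h4 : 4 ∣ pn i.1 - 1 := by
        have : (4 : ℕ) = 2 ^ 2 := by norm_num
        rw [this]
        exact (pow_dvd_pow 2 hc2).trans i.2.1.dvd
      have hcard := four_dvd_card h.hm (hdvd i) hd.rcf (hL i).rcf (hHL i) h4 hT1
      obtain ⟨τ, hτ, hτ2, hτH⟩ := exists_involution (hHL i) (by
        obtain ⟨k, hk⟩ := hcard
        exact ⟨2 * k, by omega⟩)
      have hFL : IntermediateField.lift (IntermediateField.fixedField (Subgroup.zpowers τ)) ≤ L i :=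
        IntermediateField.lift_le _
      have hFab : IsAbelianGalois K (IntermediateField.lift
        (IntermediateField.fixedField (Subgroup.zpowers τ)) : IntermediateField K ℝ) :=
        isAbelianGalois_of_le hFL
      have hFfd : FiniteDimensional K (IntermediateField.lift
        (IntermediateField.fixedField (Subgroup.zpowers τ)) : IntermediateField K ℝ) :=
        fd_of_le hFL
      have hHF : H ≤ IntermediateField.lift (IntermediateField.fixedField (Subgroup.zpowers τ)) := by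
        intro x hx
        refine (mem_lift_fixedField _ (hHL i hx)).2 ?_
        intro σ hσ
        have h1 : res (hHL i) σ = 1 := by
          obtain ⟨k, rfl⟩ := Subgroup.mem_zpowers_iff.1 hσ
          rw [map_zpow, hτH, one_zpow]
        exact (res_eq_one_iff (hHL i) σ).1 h1 x hx
      obtain ⟨e1, e2⟩ := fix_involution hτ hτ2 rfl hFL
      have hASτ := hBm i.1 i.2.2 (hdvd i) i.2.1.not_dvd (hL i) τ
        ((res_eq_one_iff (hHL i) τ).1 hτH)
      refine ⟨_, hHF, hFL, hFfd, hFab, as_fibProd_of_inv hFL (hL i).pre.mem (hL i).pre.pos hτ hτ2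
        e1 hASτ 1, ?_, Or.inr ⟨τ, hτ, hτ2, hτH, rfl⟩⟩
      have e3 := card_fib_mul hHF hFL
      rw [e2] at e3
      obtain ⟨k, hk⟩ := hcard
      have e4 : (fib (hHF.trans hFL) (1 : H ≃ₐ[K] H)).card = 4 * k := hk
      exact ⟨k, by omega⟩
    · -- type II
      have hT2 : T2 i := (units_dichotomy h.h2 h.hm i.1).resolve_left hT1
      have hc' := hcase.resolve_left (fun hl => hT1 fun w hw => by
        obtain ⟨x, rfl⟩ := hl w hw
        exact ⟨Ideal.Quotient.mk _ (x : 𝓞 K), by rw [← map_pow]; rfl⟩)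
      have hst := hc' _ (hHi i).hm (hle i) (hHi i).hv hT2
      have hAS := SData.as_of_starkTate (hHi i).hm (hL i) hst
      refine ⟨L i, hHL i, le_rfl, hfd i, hab i,
        AS.fibProd le_rfl (hL i).pre.mem (hL i).pre.pos hAS 1, ?_, Or.inl ⟨hT2, hc'⟩⟩
      exact even_fib h.hm (hdvd i) rfl i.2.1.odd (fun w hw1 hw2 => i.2.1.sq w ⟨hw1, hw2⟩) hd.rcf
        (hL i).rcf (hHL i)
  choose F hHF hFL hFfd hFab hFAS hFeven hFtype using hchoice
  have hgen : ∀ B' : Set (PrI K), B'.Finite → Subgroup.closure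
      {σ | ∃ i : ι, i.1 ∉ B' ∧ Art (cls σ₂ m (prJ m i.1 (hdvd i))) = σ} = ⊤ := by
    intro B' hB'
    rw [eq_top_iff, ← hgenc (B ∪ B') (hB.union hB'), Subgroup.closure_le]
    rintro σ ⟨q, hq, hqB, rfl⟩
    rw [Set.mem_union, not_or] at hqB
    exact Subgroup.subset_closure ⟨⟨q, hq, hqB.1⟩, hqB.2, rfl⟩
  refine assemble h.h2 h.hσ h.hm h.hm1 hd (fun i : ι => i.1) Subtype.val_injective hdvd L ArtL w hL
    F hHF hFL hFAS hFeven (gen_two _ (fun i : ι => i.1) hgen)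
    (fun i j => i ≠ j ∧ j.1 ∉ Bi i) (fun i j hij => hij.1) ?_ ?_
  · intro i
    rw [eq_top_iff, ← hgen (Bi i ∪ {i.1}) ((hBi i).union (Set.finite_singleton _)),
      Subgroup.closure_le]
    rintro σ ⟨j, hj, rfl⟩
    rw [Set.mem_union, not_or] at hj
    apply Subgroup.subset_closure
    exact ⟨j, ⟨fun hh => hj.2 (congrArg Subtype.val hh).symm, hj.1⟩, rfl⟩
  · -- pairs
    rintro i j ⟨hij, hjB⟩
    have hij' : i.1 ≠ j.1 := fun hh => hij (Subtype.ext hh)
    have hHM : Hyp σ₂ (m * i.1.asIdeal * j.1.asIdeal) v := (hHi i).mul (hqv j)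
    obtain ⟨M, ArtM, Z, hM⟩ := hHM.stark _ hHM.hm le_rfl hHM.hv
    have hMi : m * i.1.asIdeal * j.1.asIdeal ≤ m * i.1.asIdeal := Ideal.mul_le_left
    have hMj : m * i.1.asIdeal * j.1.asIdeal ≤ m * j.1.asIdeal := by
      rw [mul_right_comm]; exact Ideal.mul_le_left
    have hLiM : L i ≤ M := IsRCF.le hMi hHM.hm Set.finite_empty Set.finite_empty hM.rcf.isRCF
      (hL i).rcf.isRCF
    have hLjM : L j ≤ M := IsRCF.le hMj hHM.hm Set.finite_empty Set.finite_empty hM.rcf.isRCF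
      (hL j).rcf.isRCF
    have hMfd := hM.rcf.finite
    have hMab : IsAbelianGalois K M := hM.rcf.isRCF.abelian
    have hsab : IsAbelianGalois K (F i ⊔ F j : IntermediateField K ℝ) := isAbelianGalois_sup
    have hsup : F i ⊔ F j ≤ M := sup_le ((hFL i).trans hLiM) ((hFL j).trans hLjM)
    refine ⟨M, ArtM, Z, hM, hMfd, hMab, hsab, hsup, ?_⟩
    have hdj : ¬ j.1.asIdeal ∣ m * i.1.asIdeal := not_dvd_mul_prime (hdvd j) hij'.symm
    have hII : (∀ w : (𝓞 K)ˣ, EU σ₂ (m * i.1.asIdeal * j.1.asIdeal) w →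
        ∃ w' : (𝓞 K)ˣ, EU σ₂ m w' ∧ w = w' ^ 2) → (∀ n : Ideal (𝓞 K), n ≠ ⊥ → n ≤ m →
        ¬ v.asIdeal ∣ n →
        (∀ w : (𝓞 K)ˣ, EU σ₂ n w → ∃ w' : (𝓞 K)ˣ, EU σ₂ m w' ∧ w = w' ^ 2) → StarkTate σ₂ n) →
        AS K (fibProd hsup Z 1) := by
      intro hw hn
      have hst := hn _ hHM.hm (hMi.trans (hle i)) hHM.hv hw
      exact AS.fibProd hsup hM.pre.mem hM.pre.pos (SData.as_of_starkTate hHM.hm hM hst) 1
    rcases hFtype i with ⟨hi1, hi2⟩ | ⟨τi, -, -, -, -⟩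
    · exact hII (fun w hw => hi1 w (EU.mono' hMi hw)) hi2
    rcases hFtype j with ⟨hj1, hj2⟩ | ⟨τ, hτ, hτ2, hτH, hFj⟩
    · exact hII (fun w hw => hj1 w (EU.mono' hMj hw)) hj2
    have heven : Even (fib hLiM (1 : L i ≃ₐ[K] L i)).card :=
      even_fib (hHi i).hm hdj rfl j.2.1.odd
        (fun w hw1 hw2 => j.2.1.sq w (EU.mono' (hle i) ⟨hw1, hw2⟩)) (hL i).rcf hM.rcf hLiM
    obtain ⟨τ', hτ'1, hτ'2, hτ'L⟩ := exists_involution hLiM heven
    have hfixL := (res_eq_one_iff hLiM τ').1 hτ'L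
    have hASτ := hBim i j.1 hjB hdj j.2.1.not_dvd hM τ' hfixL
    have hfix : ∀ x ∈ F i ⊔ F j, act τ' x = x := by
      have h1 : F i ⊔ F j ≤ eqField τ' 1 := by
        refine sup_le ?_ ?_
        · intro x hx
          refine ⟨hLiM (hFL i hx), ?_⟩
          rw [hfixL x (hFL i hx), act_one_left (hLiM (hFL i hx))]
        · intro x hx
          refine ⟨hLjM (hFL j hx), ?_⟩
          rw [act_one_left (hLjM (hFL j hx)), ← act_res hLjM τ' (hFL j hx)]
          by_cases hτ'' : res hLjM τ' = 1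
          · rw [hτ'', act_one_left (hFL j hx)]
          · have h2 : res (hHL j) (res hLjM τ') = 1 := by
              rw [res_res, ← res_res (hHL i) hLiM, hτ'L, map_one]
            have h3 : res hLjM τ' = τ := eq_of_involution h.hm (hdvd j) hd.rcf (hL j).rcf (hHL j)
              h2 hτH (by rw [← map_mul, hτ'2, map_one]) hτ2 hτ'' hτ
            rw [h3]
            rw [hFj] at hx
            exact (mem_lift_fixedField _ (IntermediateField.lift_le _ hx)).1 hx τ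
              (Subgroup.mem_zpowers τ)
      intro x hx
      have h2 := (h1 hx).2
      rwa [act_one_left (h1 hx).1] at h2
    exact as_fibProd_of_inv hsup hM.pre.mem hM.pre.pos hτ'1 hτ'2
      ((res_eq_one_iff hsup τ').2 hfix) hASτ 1

end Pool.Agent.STd
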