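import Pool.Agent.Lib.MP_1ef7cf_nt_c.Mg.G006
import Pool.Agent.Lib.MP_1ef7cf_nt_d.FIN

/-!
# The square root condition follows from the conditions 1-3, for general moduli
-/

set_option linter.unusedSectionVars false

open NumberField IsDedekindDomain nonZeroDivisors IntermediateField

namespace Pool.Agent.STd

open Pool.Agent.ST Pool.Agent.STb

variable {K : Type*} [Field K] [NumberField K] [Algebra K ℝ] {σ₂ : K →+* ℝ}

lemma preStark_of_isSU {H : IntermediateField K ℝ} {u : ℝ} (h : IsSU σ₂ H u) :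
    PreStark σ₂ H u :=
  ⟨h.mem, h.pos, h.int, h.int_inv, fun g hg => by
    rw [emb_of_mem g h.mem]
    exact h.abs g hg⟩

lemma STData0.sData {m : Ideal (𝓞 K)} {H : IntermediateField K ℝ}
    {Art : RayClassGroup σ₂ m ≃* (H ≃ₐ[K] H)} {u : ℝ} (h : STData0 σ₂ m H Art u) :
    SData σ₂ m H Art u := ⟨h.rcf, preStark_of_isSU h.su, h.act⟩

section rem

variable {m : Ideal (𝓞 K)} {v : PrI K}

theorem remove_v (h : Hyp σ₂ m v) (hU : (∀ w : (𝓞 K)ˣ, EU σ₂ m w → IsSquare w) ∨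
    ((∀ v' : PrI K, (2 : 𝓞 K) ∈ v'.asIdeal → ¬ v'.asIdeal ∣ m) ∧ UnitCond σ₂ m)) :
    StarkTate σ₂ m := by
  have key4 : ∀ n : Ideal (𝓞 K), Hyp σ₂ n v →
      (∀ w : (𝓞 K)ˣ, EU σ₂ n w → ∃ x : (𝓞 K)ˣ, w = x ^ 4) → StarkTate σ₂ n := by
    intro n hn hw
    refine final_step hn (EE_of_isSquare fun w hw' => ?_) (Or.inl hw)
    obtain ⟨x, rfl⟩ := hw w hw'
    exact ⟨x ^ 2, by rw [← pow_add]⟩
  have key2 : ∀ n : Ideal (𝓞 K), Hyp σ₂ n v →
      (∀ w : (𝓞 K)ˣ, EU σ₂ n w → IsSquare w) → StarkTate σ₂ n := by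
    intro n hn hw
    refine final_step hn (EE_of_isSquare hw) (Or.inr fun n' hn' hle hv hw' => ?_)
    refine key4 n' (hn.mono hn' hle hv) fun w hw2 => ?_
    obtain ⟨w', h1, rfl⟩ := hw' w hw2
    obtain ⟨x, rfl⟩ := hw w' h1
    exact ⟨x, by rw [← pow_two, ← pow_mul]⟩
  rcases hU with hU | ⟨hodd, hU⟩
  · exact key2 m h hU
  · refine final_step h (EE_of_unitCond h.h2 h.hσ hU hodd) (Or.inr fun n' hn' hle hv hw' => ?_)
    refine key2 n' (h.mono hn' hle hv) fun w hw2 => ?_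
    obtain ⟨w', h1, rfl⟩ := hw' w hw2
    exact ⟨w', pow_two w'⟩

end rem

/-- All the multiples of `m`. -/
theorem full_aux (h2 : Module.finrank ℚ K = 2) (hσ : σ₂ ≠ sg1 K) {m : Ideal (𝓞 K)}
    (hm1 : m ≠ ⊤)
    (hU : (∃ v : HeightOneSpectrum (𝓞 K), (2 : 𝓞 K) ∈ v.asIdeal ∧ v.asIdeal ∣ m) ∨
      UnitCond σ₂ m)
    (hS : ∀ n : Ideal (𝓞 K), n ≠ ⊥ → n ≤ m → ∃ (H : IntermediateField K ℝ)
      (Art : RayClassGroup σ₂ n ≃* (H ≃ₐ[K] H)) (u : ℝ), SData σ₂ n H Art u) :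
    ∀ n : Ideal (𝓞 K), n ≠ ⊥ → n ≤ m → StarkTate σ₂ n := by
  classical
  have key : ∀ (d : ℕ) (n : Ideal (𝓞 K)), n ≠ ⊥ → n ≤ m →
      {v : PrI K | (2 : 𝓞 K) ∈ v.asIdeal ∧ ¬ v.asIdeal ∣ n}.ncard = d → StarkTate σ₂ n := by
    intro d
    induction d using Nat.strong_induction_on with
    | _ d ih =>
      intro n hn hnm hd
      have hn1 : n ≠ ⊤ := ne_top_of_le_ne_top hm1 hnm
      have hfin : {v : PrI K | (2 : 𝓞 K) ∈ v.asIdeal ∧ ¬ v.asIdeal ∣ n}.Finite :=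
        (finite_two K).subset fun v hv => hv.1
      by_cases hall : ∀ v : PrI K, (2 : 𝓞 K) ∈ v.asIdeal → v.asIdeal ∣ n
      · obtain ⟨H, Art, u, hdat⟩ := hS n hn hnm
        have hfd := hdat.rcf.finite
        have hab : IsAbelianGalois K H := hdat.rcf.isRCF.abelian
        have h3 := Pool.Agent.STc.sqrt_full h2 hσ hn hn1 hall
          (fun n' h4 h5 => hS n' h4 (h5.trans hnm)) hdat
        have h4 := isSU_of_preStark hdat.pre
        have h5 : STData σ₂ n H Art u :=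
          ⟨hdat.rcf, ⟨h4.mem, h4.pos, h4.int, h4.int_inv, h4.abs, h3⟩, hdat.act⟩
        exact h5.starkTate h2 hσ hn hn1
      · push Not at hall
        obtain ⟨v, hv2, hvn⟩ := hall
        have hyp : ∀ n' : Ideal (𝓞 K), n' ≠ ⊥ → n' ≤ n → ¬ v.asIdeal ∣ n' → Hyp σ₂ n' v := by
          intro n' hn' hle hvn'
          refine ⟨h2, hσ, hn', ne_top_of_le_ne_top hn1 hle, hvn',
            fun n'' h3 h4 _ => hS n'' h3 (h4.trans (hle.trans hnm)), fun n'' h3 h4 h5 => ?_⟩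
          have hle' : n'' * v.asIdeal ≤ n := Ideal.mul_le_left.trans (h4.trans hle)
          refine ih _ ?_ (n'' * v.asIdeal) (mul_ne_bot' h3 v.ne_bot) (hle'.trans hnm) rfl
          rw [← hd]
          apply Set.ncard_lt_ncard _ hfin
          refine ⟨?_, fun hss => ?_⟩
          · rintro w ⟨hw, hw'⟩
            refine ⟨hw, fun hwn => hw' ?_⟩
            exact hwn.trans (Ideal.dvd_iff_le.2 hle')
          · exact (hss ⟨hv2, hvn⟩).2 (dvd_mul_left _ _)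
        by_cases hex : ∃ p : PrI K, (2 : 𝓞 K) ∈ p.asIdeal ∧ p.asIdeal ∣ n
        · obtain ⟨p, hp2, hpn⟩ := hex
          obtain ⟨j, hj⟩ := exists_sq_level (σ₂ := σ₂) h2 hn hp2 hpn
          have hne : n * p.asIdeal ^ j ≠ ⊥ := mul_ne_bot' hn (pow_ne_zero _ p.ne_bot)
          have hle : n * p.asIdeal ^ j ≤ n := Ideal.mul_le_left
          have hdvd : ∀ w : PrI K, w.asIdeal ∣ n * p.asIdeal ^ j → w.asIdeal ∣ n :=
            fun w hw => (dvd_mul_pow_iff hpn).1 hw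
          have h3 := remove_v (hyp _ hne hle fun hh => hvn (hdvd v hh)) (Or.inl hj)
          exact starkTate_same h2 hσ hle hne hn hn1 hdvd h3
        · push Not at hex
          have hU' : UnitCond σ₂ n := by
            rcases hU with ⟨p, hp2, hpm⟩ | hU
            · exact absurd (hpm.trans (Ideal.dvd_iff_le.2 hnm)) (hex p hp2)
            · exact hU.mono hnm
          exact remove_v (hyp n hn le_rfl hvn) (Or.inr ⟨hex, hU'⟩)
  intro n hn hnm
  exact key _ n hn hnm rfl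

theorem full (h2 : Module.finrank ℚ K = 2) (hσ : σ₂ ≠ sg1 K) {n : Ideal (𝓞 K)} (hn1 : n ≠ ⊤)
    (hU : (∃ v : HeightOneSpectrum (𝓞 K), (2 : 𝓞 K) ∈ v.asIdeal ∧ v.asIdeal ∣ n) ∨
      UnitCond σ₂ n) (k : ℕ)
    (hst : ∀ m : Ideal (𝓞 K), m ≠ ⊥ → n ∣ m → k ≤ numPrimes m →
      (∀ v : HeightOneSpectrum (𝓞 K), v.asIdeal ∣ m → v.asIdeal ^ k ∣ m) → Stark σ₂ m) :
    ∀ m : Ideal (𝓞 K), m ≠ ⊥ → n ∣ m → StarkTate σ₂ m := by
  refine main h2 hσ hn1 hU k ?_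
  intro m hm hnm hk _
  have hmn : m ≤ n := Ideal.dvd_iff_le.1 hnm
  have hm1 : m ≠ ⊤ := ne_top_of_le_ne_top hn1 hmn
  refine full_aux h2 hσ (m := m) hm1 ?_ ?_ m hm le_rfl
  · rcases hU with ⟨v, hv, hvn⟩ | hU
    · exact Or.inl ⟨v, hv, hvn.trans hnm⟩
    · exact Or.inr (hU.mono hmn)
  · intro n' hn' hle
    have hn1' : n' ≠ ⊤ := ne_top_of_le_ne_top hm1 hle
    have hne : n' ^ (k + 1) ≠ ⊥ := pow_ne_zero _ hn'
    have hdvd : ∀ w : PrI K, w.asIdeal ∣ n' ^ (k + 1) ↔ w.asIdeal ∣ n' :=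
      fun w => ⟨fun h => w.prime.dvd_of_dvd_pow h, fun h => h.trans (dvd_pow_self _ (by omega))⟩
    have hstk : Stark σ₂ (n' ^ (k + 1)) := by
      refine hst _ hne ((hnm.trans (Ideal.dvd_iff_le.2 hle)).trans (dvd_pow_self _ (by omega))) ?_ ?_
      · refine hk.trans ?_
        unfold numPrimes
        refine Set.ncard_le_ncard ?_ (finite_dvd hne)
        intro w hw
        exact (hdvd w).2 ((show w.asIdeal ∣ m from hw).trans (Ideal.dvd_iff_le.2 hle))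
      · intro w hw
        exact ((pow_dvd_pow_of_dvd ((hdvd w).1 hw) k).trans (pow_dvd_pow n' (Nat.le_succ k)))
    have h3 := stark_same h2 hσ (Ideal.pow_le_self (by omega)) hne hn' hn1'
      (fun w hw => (hdvd w).1 hw) hstk
    obtain ⟨H, Art, u, hd⟩ := h3.data
    exact ⟨H, Art, u, STData0.sData hd⟩

end Pool.Agent.STd
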