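import Pool.Agent.Lib.MP_1ef7cf_nt_d.CLA

/-!
# The good primes
-/

set_option linter.unusedSectionVars false

open NumberField IsDedekindDomain nonZeroDivisors IntermediateField

namespace Pool.Agent.STd

open Pool.Agent.ST Pool.Agent.STb

variable {K : Type*} [Field K] [NumberField K] [Algebra K ℝ] {σ₂ : K →+* ℝ}
  {m : Ideal (𝓞 K)} {H : IntermediateField K ℝ} {Art : RayClassGroup σ₂ m ≃* (H ≃ₐ[K] H)}

/-- the condition on units -/
def EE (σ₂ : K →+* ℝ) (m : Ideal (𝓞 K)) : Prop :=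
  ∀ (H : IntermediateField K ℝ) (Art : RayClassGroup σ₂ m ≃* (H ≃ₐ[K] H)),
    IsRayClassField σ₂ m H Art → ∀ u : (𝓞 K)ˣ, EU σ₂ m u → ∀ y ∈ H,
    (y ^ 2 = algebraMap K ℝ ((u : 𝓞 K) : K) ∨ y ^ 2 = -algebraMap K ℝ ((u : 𝓞 K) : K)) →
    ∃ a : K, algebraMap K ℝ a = y

/-- the good primes -/
structure GoodQ (σ₂ : K →+* ℝ) (m : Ideal (𝓞 K)) (c : ℕ) (q : PrI K) : Prop where
  ndvd : ¬ q.asIdeal ∣ m
  odd : (2 : 𝓞 K) ∉ q.asIdeal
  dvd : 2 ^ c ∣ pn q - 1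
  not_dvd : ¬ 2 ^ (c + 1) ∣ pn q - 1
  sq : ∀ w : (𝓞 K)ˣ, EU σ₂ m w → IsSquare (Ideal.Quotient.mk q.asIdeal (w : 𝓞 K))

/-- a standard root of unity -/
noncomputable def zt (k : ℕ) : ℂ := Complex.exp (2 * Real.pi * Complex.I / (2 ^ k : ℕ))

lemma zt_prim (k : ℕ) : IsPrimitiveRoot (zt k) (2 ^ k) :=
  Complex.isPrimitiveRoot_exp (2 ^ k) (by positivity)

/-- the number of roots of unity is finite -/
lemma exists_zt_notMem (A : IntermediateField K ℂ) [FiniteDimensional K A] :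
    ∃ k : ℕ, zt k ∉ A := by
  by_contra hcon
  push Not at hcon
  have hN : NumberField A := NumberField.of_module_finite K _
  have h1 : ∀ k : ℕ, k < Module.finrank ℚ A := by
    intro k
    set z : A := ⟨zt (k + 1), hcon (k + 1)⟩ with hz
    have hz1 : IsPrimitiveRoot z (2 ^ (k + 1)) := by
      rw [← IsPrimitiveRoot.coe_submonoidClass_iff]
      exact zt_prim (k + 1)
    have h2 := Polynomial.cyclotomic_eq_minpoly_rat hz1 (by positivity)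
    have h3 := minpoly.natDegree_le (A := ℚ) z
    rw [← h2, Polynomial.natDegree_cyclotomic, Nat.totient_prime_pow_succ Nat.prime_two] at h3
    have h4 : k < 2 ^ k := Nat.lt_two_pow_self
    omega
  exact lt_irrefl _ (h1 _)

lemma exists_c (A : IntermediateField K ℂ) [FiniteDimensional K A] (h2 : zt 2 ∈ A) :
    ∃ c : ℕ, 2 ≤ c ∧ zt c ∈ A ∧ zt (c + 1) ∉ A := by
  classical
  have hex := exists_zt_notMem A
  set k := Nat.find hex with hk
  have hk1 : zt k ∉ A := Nat.find_spec hex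
  have hk2 : ∀ j < k, zt j ∈ A := fun j hj => not_not.1 (Nat.find_min hex hj)
  have hpow : ∀ j ≤ 2, zt j ∈ A := by
    intro j hj
    have h3 : (zt j) ^ (2 ^ 2) = 1 := by
      have h4 := (zt_prim j).pow_eq_one
      obtain ⟨i, hi⟩ := Nat.exists_eq_add_of_le hj
      have h5 : (2 : ℕ) ^ 2 = 2 ^ j * 2 ^ i := by rw [← pow_add, ← hi]
      rw [h5, pow_mul, h4, one_pow]
    obtain ⟨i, -, hi⟩ := (zt_prim 2).eq_pow_of_pow_eq_one h3
    rw [← hi]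
    exact pow_mem h2 i
  have hk3 : 3 ≤ k := by
    by_contra hcon
    exact hk1 (hpow k (by omega))
  refine ⟨k - 1, by omega, hk2 _ (by omega), ?_⟩
  rw [Nat.sub_add_cancel (by omega)]
  exact hk1

theorem gen_primes (h2 : Module.finrank ℚ K = 2) (hm : m ≠ ⊥)
    (hr : IsRayClassField σ₂ m H Art) (hE : EE σ₂ m) :
    ∃ c : ℕ, 2 ≤ c ∧ ∀ B : Set (PrI K), B.Finite →
      Subgroup.closure {σ | ∃ (q : PrI K) (hq : GoodQ σ₂ m c q), q ∉ B ∧
        Art (cls σ₂ m (prJ m q hq.ndvd)) = σ} = ⊤ := by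
  have hfd := hr.finite
  have hab : IsAbelianGalois K H := hr.isRCF.abelian
  obtain ⟨η, hη, -, hη2⟩ := exists_gen σ₂ h2 hm
  set e : K := ((η : 𝓞 K) : K) with he
  have gM : IsGalois K (MN e 1) := gal_MN e 1
  have fM : FiniteDimensional K (MN e 1) := fd_MN e 1
  have hz2 : zt 2 ∈ MN e 1 := subset_adjoin K _ (Or.inr (zt_prim 2).pow_eq_one)
  obtain ⟨c, hc, hcA, hcA'⟩ := exists_c (MN e 1) hz2
  refine ⟨c, hc, fun B hB => ?_⟩
  by_contra htop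
  set T := Subgroup.closure {σ | ∃ (q : PrI K) (hq : GoodQ σ₂ m c q), q ∉ B ∧
        Art (cls σ₂ m (prJ m q hq.ndvd)) = σ} with hT
  obtain ⟨x, hxF, hxK⟩ : ∃ x ∈ IntermediateField.lift (IntermediateField.fixedField T),
      ∀ a : K, algebraMap K ℝ a ≠ x := by
    by_contra hcon
    push Not at hcon
    apply htop
    rw [eq_top_iff]
    intro γ _
    refine mem_of_fix T (γ := γ) fun x hx => ?_
    obtain ⟨a, ha⟩ := hcon x hx
    have hxH : x ∈ H := IntermediateField.lift_le _ hx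
    have h3 : (⟨x, hxH⟩ : H) = algebraMap K H a := Subtype.ext ha.symm
    rw [act_of_mem γ hxH, h3, AlgEquiv.commutes]
    exact ha
  have hx : x ∈ H := IntermediateField.lift_le _ hxF
  have hfixT : ∀ σ ∈ T, act σ x = x := (mem_lift_fixedField T hx).1 hxF
  have hxM : (x : ℂ) ∉ MN e 1 := by
    intro hxA
    obtain ⟨a, b, hab'⟩ := real_MN_one hxA
    by_cases hb : b = 0
    · apply hxK a
      rw [hab', hb, map_zero, zero_mul, add_zero]
    · have hb' : algebraMap K ℝ b ≠ 0 := (_root_.map_ne_zero _).2 hb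
      have hyH : Real.sqrt |algebraMap K ℝ e| ∈ H := by
        have h3 : Real.sqrt |algebraMap K ℝ e| = (x - algebraMap K ℝ a) / algebraMap K ℝ b := by
          rw [hab']; field_simp; ring
        rw [h3]
        exact H.div_mem (H.sub_mem hx (H.algebraMap_mem a)) (H.algebraMap_mem b)
      obtain ⟨a', ha'⟩ := hE H Art hr η hη _ hyH (by
        rw [Real.sq_sqrt (abs_nonneg _)]
        exact abs_choice _)
      apply hxK (a + b * a')
      rw [map_add, map_mul, ha', ← hab']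
  have hFH : K⟮x⟯ ≤ H := adjoin_simple_le_iff.2 hx
  have : IsAbelianGalois K K⟮x⟯ := isAbelianGalois_of_le hFH
  have : FiniteDimensional K K⟮x⟯ := fd_of_le hFH
  have gx : IsGalois K K⟮(x : ℂ)⟯ := adjoin_coe_galois
  have fx : FiniteDimensional K K⟮(x : ℂ)⟯ := by
    rw [adjoin_coe]
    exact Module.Finite.equiv (IntermediateField.equivMap K⟮x⟯ (jR K)).toLinearEquiv
  obtain ⟨fZ, gZ⟩ := KZ_fd (K := K) (n := 2 ^ (c + 1)) (by positivity)
  have gM₁ : IsGalois K (MN e 1 ⊔ KZ K (2 ^ (c + 1)) : IntermediateField K ℂ) := by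
    have : Normal K (MN e 1 ⊔ KZ K (2 ^ (c + 1)) : IntermediateField K ℂ) := inferInstance
    exact ⟨⟩
  have gM₂ : IsGalois K (MN e 1 ⊔ K⟮(x : ℂ)⟯ : IntermediateField K ℂ) := by
    have : Normal K (MN e 1 ⊔ K⟮(x : ℂ)⟯ : IntermediateField K ℂ) := inferInstance
    exact ⟨⟩
  have h1 : MN e 1 < MN e 1 ⊔ KZ K (2 ^ (c + 1)) := by
    refine lt_of_le_of_ne le_sup_left fun hh => ?_
    apply hcA'
    rw [hh]
    exact (le_sup_right : KZ K (2 ^ (c + 1)) ≤ _) (subset_adjoin K _ (zt_prim (c + 1)).pow_eq_one)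
  have h2' : MN e 1 < MN e 1 ⊔ K⟮(x : ℂ)⟯ := by
    refine lt_of_le_of_ne le_sup_left fun hh => ?_
    apply hxM
    rw [hh]
    exact (le_sup_right : K⟮(x : ℂ)⟯ ≤ _) (mem_adjoin_simple_self K _)
  obtain ⟨L, hNL, hGL, hL₁, hL₂, P, σ, hPB, hσ, e0, ⟨x₁, hx₁, e1⟩, ⟨x₂, hx₂, e2⟩⟩ :=
    exists_twoC h1 h2' ({q | q.asIdeal ∣ m} ∪ {q | (2 : 𝓞 K) ∈ q.asIdeal} ∪ B)
      (((finite_dvd hm).union (finite_two K)).union hB)
  rw [Set.mem_union, Set.mem_union, not_or, not_or] at hPB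
  obtain ⟨⟨hq, hq2⟩, hqB⟩ := hPB
  have hq : ¬ (und K P).asIdeal ∣ m := hq
  have hq2 : (2 : 𝓞 K) ∉ (und K P).asIdeal := hq2
  have hML : MN e 1 ≤ L := h1.le.trans hL₁
  have hfM : MN e 1 ≤ fixL σ := fun z hz => (mem_fixL σ (hML hz)).2 (e0 z hz)
  have hdvd : 2 ^ c ∣ pn (und K P) - 1 := by
    have hζL : IsPrimitiveRoot (⟨zt c, hML hcA⟩ : L) (2 ^ c) := by
      rw [← IsPrimitiveRoot.coe_submonoidClass_iff]
      exact zt_prim c
    exact (fix_root_iff hσ hq2 hζL).1 (e0 _ hcA)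
  have hndvd : ¬ 2 ^ (c + 1) ∣ pn (und K P) - 1 := by
    intro hd
    apply e1
    have hTf : MN e 1 ⊔ KZ K (2 ^ (c + 1)) ≤ fixL σ := by
      refine sup_le hfM ?_
      unfold KZ
      rw [adjoin_le_iff]
      intro z hz
      have hzL : z ∈ L := hL₁ ((le_sup_right : KZ K (2 ^ (c + 1)) ≤ MN e 1 ⊔ KZ K (2 ^ (c + 1)))
        (subset_adjoin K _ hz))
      have h1P : (1 : 𝓞 K) ∉ (und K P).asIdeal := fun hh =>
        (und K P).isPrime.ne_top ((Ideal.eq_top_iff_one _).2 hh)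
      refine (mem_fixL σ hzL).2 ((fix_iff_pow hσ hq2 hd h1P (x := ⟨z, hzL⟩) ?_).2 ⟨1, by simp⟩)
      apply Subtype.ext
      have hz' : z ^ (2 ^ (c + 1)) = 1 := hz
      change z ^ (2 ^ (c + 1)) = _
      rw [hz']
      have h6 : algebraMap K L ((1 : 𝓞 K) : K) = 1 := by
        have h7 : ((1 : 𝓞 K) : K) = 1 := rfl
        rw [h7, map_one]
      rw [h6]
      rfl
    exact (mem_fixL σ _).1 (hTf hx₁)
  obtain ⟨ρ, hρ⟩ := IsAlgClosed.exists_pow_nat_eq (algebraMap K ℂ e)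
    (show 0 < 2 ^ 1 by positivity)
  have hρM : ρ ∈ MN e 1 := subset_adjoin K _ (Or.inl hρ)
  have hun : ∀ w : (𝓞 K)ˣ, EU σ₂ m w →
      IsSquare (Ideal.Quotient.mk (und K P).asIdeal (w : 𝓞 K)) := by
    intro w hw
    have hw' : (w : 𝓞 K) ∉ (und K P).asIdeal := fun hh =>
      (und K P).isPrime.ne_top (Ideal.eq_top_of_isUnit_mem _ hh w.isUnit)
    obtain ⟨k, hk⟩ := hη2 w hw
    have hzM : ρ ^ k ∈ MN e 1 := zpow_mem hρM k
    have hz : (ρ ^ k) ^ (2 ^ 1) = algebraMap K ℂ ((w : 𝓞 K) : K) := by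
      rw [← zpow_natCast, ← zpow_mul, mul_comm, zpow_mul, zpow_natCast, hρ, hk, ← map_zpow₀]
      congr 1
      rw [he, coe_zpow_unit]
    obtain ⟨y, hy⟩ := (fix_iff_pow hσ hq2 ((pow_dvd_pow 2 (by omega : 1 ≤ c)).trans hdvd) hw'
      (x := ⟨ρ ^ k, hML hzM⟩) (Subtype.ext hz)).1 (e0 _ hzM)
    refine ⟨y, ?_⟩
    rw [← hy, pow_one, pow_two]
  have hgood : GoodQ σ₂ m c (und K P) := ⟨hq, hq2, hdvd, hndvd, hun⟩
  have hmemT : Art (cls σ₂ m (prJ m (und K P) hq)) ∈ T :=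
    Subgroup.subset_closure ⟨und K P, hgood, hqB, rfl⟩
  have hxL : (x : ℂ) ∈ L := hL₂ ((le_sup_right : K⟮(x : ℂ)⟯ ≤ _) (mem_adjoin_simple_self K _))
  have h5 := frob_real hr hσ hq hx hxL (hfixT _ hmemT)
  apply e2
  have hf2 : MN e 1 ⊔ K⟮(x : ℂ)⟯ ≤ fixL σ :=
    sup_le hfM (adjoin_simple_le_iff.2 ((mem_fixL σ hxL).2 h5))
  exact (mem_fixL σ _).1 (hf2 hx₂)

/-- the condition on units for odd moduli -/
theorem EE_of_unitCond (h2 : Module.finrank ℚ K = 2) (hσ : σ₂ ≠ sg1 K) (hU : UnitCond σ₂ m)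
    (hodd : ∀ v : HeightOneSpectrum (𝓞 K), (2 : 𝓞 K) ∈ v.asIdeal → ¬ v.asIdeal ∣ m) :
    EE σ₂ m := by
  intro H Art hr u hu y hyH hy2
  rcases hy2 with hy2 | hy2
  · exact EN_of_unitCond hU hodd H Art hr u hu y hyH hy2
  by_contra hcon
  push Not at hcon
  have hfd := hr.finite
  have hG := hr.galois
  have hab := hr.isRCF.abelian
  have hLH : K⟮y⟯ ≤ H := by rw [adjoin_simple_le_iff]; exact hyH
  have hyL : y ∈ K⟮y⟯ := mem_adjoin_simple_self K y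
  have hy2' : y ^ 2 = algebraMap K ℝ (((-u : (𝓞 K)ˣ) : 𝓞 K) : K) := by
    rw [coe_neg_unit, map_neg]; exact hy2
  have hn : Normal K K⟮y⟯ := normal_adjoin_sqrt hy2'
  have hLG : IsGalois K K⟮y⟯ := isGalois_of_normal _
  have hLfd : FiniteDimensional K K⟮y⟯ := adjoin.finiteDimensional (isIntegral_of_mem hyH)
  have hLnf := numberField_of_fd K⟮y⟯
  obtain ⟨a, ha⟩ : ∃ a : 𝓞 K, (4 : 𝓞 K) ∣ ((-u : (𝓞 K)ˣ) : 𝓞 K) - a ^ 2 := by
    apply exists_sq_mod_four (K := K) (L := K⟮y⟯) (finrank_adjoin_sqrt_le hy2')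
      (y := (⟨y, hyL⟩ : K⟮y⟯)) (u := -u)
    · exact Subtype.ext hy2'
    · intro a ha
      exact hcon a (congrArg Subtype.val ha)
    · intro P hP2
      obtain ⟨P', hP'1, hP'2, -⟩ := isFrob_res' hLH P
      have h3 : ¬ (und K P).asIdeal ∣ m := hodd _ hP2
      exact hP'2 (hr.isRCF.frobP P' (by simp) (prJ m (und K P) h3) (by rw [coe_prJ, hP'1])).1
  have hpos : 0 < algebraMap K ℝ (((-u : (𝓞 K)ˣ) : 𝓞 K) : K) := by
    rw [← hy2']
    have h3 : y ≠ 0 := by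
      rintro rfl
      exact hcon 0 (map_zero _)
    positivity
  have hneg : σ₂ (((-u : (𝓞 K)ˣ) : 𝓞 K) : K) < 0 := by
    rw [coe_neg_unit, map_neg]
    exact neg_lt_zero.2 hu.2
  have hnorm : ((Algebra.norm ℤ ((-u : (𝓞 K)ˣ) : 𝓞 K) : ℤ) : ℝ) < 0 := by
    rw [norm_int_eq h2 hσ]
    exact mul_neg_of_pos_of_neg hpos hneg
  have hnorm' : Algebra.norm ℤ ((-u : (𝓞 K)ˣ) : 𝓞 K) < 0 := by exact_mod_cast hnorm
  have hunit : IsUnit (Algebra.norm ℤ ((-u : (𝓞 K)ˣ) : 𝓞 K)) := (-u).isUnit.map (Algebra.norm ℤ)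
  have hm1 : Algebra.norm ℤ ((-u : (𝓞 K)ˣ) : 𝓞 K) = -1 := by
    rcases Int.isUnit_iff.1 hunit with h | h
    · rw [h] at hnorm'; norm_num at hnorm'
    · exact h
  have h4 : ((-u : (𝓞 K)ˣ) : 𝓞 K) - a ^ 2 ∈ Ideal.span {(2 : 𝓞 K) ^ 2} := by
    rw [Ideal.mem_span_singleton]
    have : (2 : 𝓞 K) ^ 2 = 4 := by norm_num
    rw [this]; exact ha
  have h5 := norm_congr h2 hσ h4
  rw [hm1, map_pow] at h5
  obtain ⟨t, ht⟩ := h5
  have h6 : (Algebra.norm ℤ a) ^ 2 % 4 = 0 ∨ (Algebra.norm ℤ a) ^ 2 % 4 = 1 := by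
    rcases Int.even_or_odd (Algebra.norm ℤ a) with ⟨s, hs⟩ | ⟨s, hs⟩
    · left
      rw [hs]
      have : (s + s) ^ 2 = 4 * s ^ 2 := by ring
      omega
    · right
      rw [hs]
      have : (2 * s + 1) ^ 2 = 4 * (s ^ 2 + s) + 1 := by ring
      omega
  omega

theorem EE_of_isSquare (h : ∀ u : (𝓞 K)ˣ, EU σ₂ m u → IsSquare u) : EE σ₂ m := by
  intro H Art hr u hu y hyH hy2
  obtain ⟨v, hv⟩ := h u hu
  have h5 : algebraMap K ℝ ((u : 𝓞 K) : K) = (algebraMap K ℝ ((v : 𝓞 K) : K)) ^ 2 := by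
    rw [hv, Units.val_mul]
    change algebraMap K ℝ (algebraMap (𝓞 K) K ((v : 𝓞 K) * (v : 𝓞 K))) = _
    rw [map_mul, map_mul, sq]
  rw [h5] at hy2
  rcases hy2 with hy2 | hy2
  · rcases sq_eq_sq_iff_eq_or_eq_neg.1 hy2 with h6 | h6
    · exact ⟨_, h6.symm⟩
    · exact ⟨-((v : 𝓞 K) : K), by rw [map_neg]; exact h6.symm⟩
  · have h7 : y = 0 := by
      have h8 : y ^ 2 ≤ 0 := by rw [hy2]; nlinarith [sq_nonneg (algebraMap K ℝ ((v : 𝓞 K) : K))]
      exact pow_eq_zero_iff (two_ne_zero) |>.1 (le_antisymm h8 (sq_nonneg y))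
    exact ⟨0, by rw [map_zero, h7]⟩

end Pool.Agent.STd
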